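import Mathlib

/-!
The profinite completion of the free group of rank two, seen as the orbit closure of the base
point in the product of all finite pointed actions of two permutations.
-/

open Set Filter Topology

namespace Pool.Agent.Helper91

/-- words acting by iterating two maps -/
def walk {Z : Type*} (s : Bool → Z → Z) (w : List Bool) (z : Z) : Z := w.foldr s z

@[simp] lemma walk_nil {Z : Type*} (s : Bool → Z → Z) (z : Z) : walk s [] z = z := rfl

@[simp] lemma walk_cons {Z : Type*} (s : Bool → Z → Z) (b : Bool) (w : List Bool) (z : Z) :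
    walk s (b :: w) z = s b (walk s w z) := rfl

lemma walk_append {Z : Type*} (s : Bool → Z → Z) (u v : List Bool) (z : Z) :
    walk s (u ++ v) z = walk s u (walk s v z) := by
  simp [walk, List.foldr_append]

/-- The dynamical properties of the pair of maps that we use. -/
structure Good (Z : Type) [TopologicalSpace Z] (s : Bool → Z → Z) (z0 : Z) : Prop where
  cont : ∀ b, Continuous (s b)
  ind : ∀ C : Set Z, IsClosed C → z0 ∈ C → (∀ b z, z ∈ C → s b z ∈ C) → C = univ
  recur : ∀ (w : List Bool) (z : Z), Tendsto (fun K : ℕ => (walk s w)^[K.factorial] z) atTop (𝓝 z)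
  coc : ∀ (O : Set Z) (z : Z), IsOpen O → z ∈ O → ∃ A : Set Z, IsClopen A ∧ z ∈ A ∧ A ⊆ O ∧
    ∀ (b : Bool) (k : ℕ) [NeZero k], ∃ f : Z → ZMod k, Continuous f ∧
      ∀ (c : Bool) (y : Z), (y ∈ A ∧ c = b → f (s c y) = f y + 1) ∧
        (¬ (y ∈ A ∧ c = b) → f (s c y) = f y)

namespace Prof

/-- a finite set with two permutations and a base point -/
abbrev Idx := Σ n : ℕ, (Bool → Equiv.Perm (Fin n)) × Fin n

abbrev PP := ∀ i : Idx, Fin i.1

def act (b : Bool) (x : PP) : PP := fun i => i.2.1 b (x i)

def x0 : PP := fun i => i.2.2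

lemma act_cont (b : Bool) : Continuous (act b) :=
  continuous_pi fun i => (continuous_of_discreteTopology (f := i.2.1 b)).comp (continuous_apply i)

def ZS : Set PP := closure (range (fun w : List Bool => walk act w x0))

lemma act_mem (b : Bool) {x : PP} (hx : x ∈ ZS) : act b x ∈ ZS := by
  refine map_mem_closure (act_cont b) hx ?_
  rintro _ ⟨w, rfl⟩
  exact ⟨b :: w, rfl⟩

lemma x0_mem : x0 ∈ ZS := subset_closure ⟨[], rfl⟩

abbrev ZZ : Type := ↥ZS

instance : CompactSpace ZZ := isCompact_iff_compactSpace.mp (isClosed_closure.isCompact)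

def sg (b : Bool) (z : ZZ) : ZZ := ⟨act b z.1, act_mem b z.2⟩

def z0 : ZZ := ⟨x0, x0_mem⟩

lemma sg_cont (b : Bool) : Continuous (sg b) :=
  ((act_cont b).comp continuous_subtype_val).subtype_mk _

lemma walk_val (w : List Bool) (z : ZZ) : (walk sg w z).1 = walk act w z.1 := by
  induction w with
  | nil => rfl
  | cons b w ih => simp only [walk_cons, sg]; rw [ih]

lemma ind (C : Set ZZ) (hC : IsClosed C) (h0 : z0 ∈ C) (hs : ∀ b z, z ∈ C → sg b z ∈ C) :
    C = univ := by
  have horb : ∀ w, walk sg w z0 ∈ C := by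
    intro w
    induction w with
    | nil => exact h0
    | cons b w ih => exact hs b _ ih
  apply eq_univ_of_forall
  intro z
  have hz : z ∈ closure (range (fun w : List Bool => walk sg w z0)) := by
    rw [Topology.IsEmbedding.subtypeVal.isInducing.closure_eq_preimage_closure_image]
    have : (Subtype.val '' range fun w : List Bool => walk sg w z0)
        = range (fun w : List Bool => walk act w x0) := by
      ext x
      constructor
      · rintro ⟨_, ⟨w, rfl⟩, rfl⟩
        exact ⟨w, (walk_val w z0).symm⟩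
      · rintro ⟨w, rfl⟩
        exact ⟨_, ⟨w, rfl⟩, walk_val w z0⟩
    rw [mem_preimage, this]
    exact z.2
  exact hC.closure_subset_iff.mpr (by rintro _ ⟨w, rfl⟩; exact horb w) hz

/-- the permutation of the `i`-th finite set given by a word -/
def wperm (i : Idx) (w : List Bool) : Equiv.Perm (Fin i.1) := (w.map i.2.1).prod

lemma walk_apply (i : Idx) (w : List Bool) (x : PP) : walk act w x i = wperm i w (x i) := by
  induction w with
  | nil => rfl
  | cons b w ih =>
    rw [walk_cons, act, ih]
    simp [wperm]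

lemma iter_apply (i : Idx) (w : List Bool) (n : ℕ) (x : PP) :
    (walk act w)^[n] x i = (wperm i w ^ n) (x i) := by
  induction n with
  | zero => rfl
  | succ n ih =>
    rw [Function.iterate_succ_apply', walk_apply, ih, pow_succ']
    rfl

lemma iter_val (w : List Bool) (n : ℕ) (z : ZZ) :
    ((walk sg w)^[n] z).1 = (walk act w)^[n] z.1 := by
  induction n with
  | zero => rfl
  | succ n ih =>
    rw [Function.iterate_succ_apply', Function.iterate_succ_apply', walk_val, ih]

lemma recur (w : List Bool) (z : ZZ) :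
    Tendsto (fun K : ℕ => (walk sg w)^[K.factorial] z) atTop (𝓝 z) := by
  rw [tendsto_subtype_rng, tendsto_pi_nhds]
  intro i
  apply tendsto_const_nhds.congr'
  filter_upwards [eventually_ge_atTop (Fintype.card (Equiv.Perm (Fin i.1)))] with K hK
  rw [iter_val, iter_apply]
  have hdvd : Fintype.card (Equiv.Perm (Fin i.1)) ∣ K.factorial :=
    Nat.dvd_factorial Fintype.card_pos hK
  obtain ⟨m, hm⟩ := hdvd
  rw [hm, pow_mul, pow_card_eq_one, one_pow]
  rfl

/-- skew product permutation -/
def skew {V : Type} [DecidableEq V] (σ : Bool → Equiv.Perm V) (v0 : V) (b : Bool) (k : ℕ)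
    (c : Bool) : Equiv.Perm (V × ZMod k) where
  toFun p := (σ c p.1, p.2 + if p.1 = v0 ∧ c = b then 1 else 0)
  invFun p := ((σ c).symm p.1, p.2 - if (σ c).symm p.1 = v0 ∧ c = b then 1 else 0)
  left_inv p := by ext <;> simp
  right_inv p := by ext <;> simp

lemma coc (O : Set ZZ) (z : ZZ) (hO : IsOpen O) (hz : z ∈ O) : ∃ A : Set ZZ, IsClopen A ∧ z ∈ A ∧
    A ⊆ O ∧ ∀ (b : Bool) (k : ℕ) [NeZero k], ∃ f : ZZ → ZMod k, Continuous f ∧
      ∀ (c : Bool) (y : ZZ), (y ∈ A ∧ c = b → f (sg c y) = f y + 1) ∧
        (¬ (y ∈ A ∧ c = b) → f (sg c y) = f y) := by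
  classical
  obtain ⟨O', hO', rfl⟩ := isOpen_induced_iff.mp hO
  obtain ⟨J, u, hu, hsub⟩ := isOpen_pi_iff.mp hO' z.1 hz
  -- restriction to the coordinates in `J`
  let V : Type := ∀ i : J, Fin i.1.1
  let ρ : ZZ → V := fun y i => y.1 i.1
  have hρ : Continuous ρ :=
    continuous_pi fun i => (continuous_apply i.1).comp continuous_subtype_val
  let v0 : V := ρ z
  let σ : Bool → Equiv.Perm V := fun c => Equiv.piCongrRight fun i => i.1.2.1 c
  have hσ : ∀ c y, ρ (sg c y) = σ c (ρ y) := by
    intro c y; rfl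
  refine ⟨ρ ⁻¹' {v0}, (isClopen_discrete _).preimage hρ, rfl, ?_, ?_⟩
  · intro y hy
    apply hsub
    intro i hi
    have : y.1 i = z.1 i := congrFun (show ρ y = ρ z from hy) ⟨i, hi⟩
    rw [this]
    exact (hu i hi).2
  · intro b k hk
    -- the new finite action
    let e : V × ZMod k ≃ Fin (Fintype.card (V × ZMod k)) := Fintype.equivFin _
    let i₀ : Idx := ⟨Fintype.card (V × ZMod k),
      fun c => e.symm.trans ((skew σ v0 b k c).trans e), e (ρ z0, 0)⟩
    have key : ∀ y : ZZ, (e.symm (y.1 i₀)).1 = ρ y := by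
      have hcl : IsClosed {y : ZZ | (e.symm (y.1 i₀)).1 = ρ y} := by
        apply isClosed_eq _ hρ
        exact continuous_fst.comp ((continuous_of_discreteTopology (f := e.symm)).comp
          ((continuous_apply i₀).comp continuous_subtype_val))
      have := ind _ hcl (by
        show (e.symm (e (ρ z0, 0))).1 = ρ z0
        simp) (by
        intro c y hy
        show (e.symm (e (skew σ v0 b k c (e.symm (y.1 i₀))))).1 = ρ (sg c y)
        rw [hσ, ← (show (e.symm (y.1 i₀)).1 = ρ y from hy)]
        simp [skew])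
      intro y
      have hy : y ∈ {y : ZZ | (e.symm (y.1 i₀)).1 = ρ y} := by rw [this]; trivial
      exact hy
    refine ⟨fun y => (e.symm (y.1 i₀)).2, ?_, ?_⟩
    · exact continuous_snd.comp ((continuous_of_discreteTopology (f := e.symm)).comp
          ((continuous_apply i₀).comp continuous_subtype_val))
    · intro c y
      have h1 : (e.symm ((sg c y).1 i₀)).2 = (e.symm (y.1 i₀)).2 +
          if (e.symm (y.1 i₀)).1 = v0 ∧ c = b then 1 else 0 := by
        show (e.symm (e (skew σ v0 b k c (e.symm (y.1 i₀))))).2 = _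
        simp [skew]
      constructor
      · rintro ⟨hy, hc⟩
        show (e.symm ((sg c y).1 i₀)).2 = _
        rw [h1, key, if_pos ⟨hy, hc⟩]
      · intro h
        have h' : ¬ (ρ y = v0 ∧ c = b) := h
        show (e.symm ((sg c y).1 i₀)).2 = (e.symm (y.1 i₀)).2
        rw [h1, key, if_neg h', add_zero]

theorem good : Good ZZ sg z0 := ⟨sg_cont, ind, recur, coc⟩

end Prof

end Pool.Agent.Helper91
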