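import Mathlib
import Pool.Agent.Helper91.Profinite

/-!
Suspension of two maps; indecomposability.
-/

open Set Filter Topology

namespace Pool.Agent.Helper91

/-- The number of times the path spelled by a word crosses an edge of kind `i` over `A`. -/
def cnt {Z : Type*} (s : Bool → Z → Z) (A : Set Z) (i : Bool) [∀ z, Decidable (z ∈ A)] :
    List Bool → Z → ℕ
  | [], _ => 0
  | b :: w, z => cnt s A i w z + if walk s w z ∈ A ∧ b = i then 1 else 0

section cnt
variable {Z : Type*} (s : Bool → Z → Z) (A : Set Z) (i : Bool) [∀ z, Decidable (z ∈ A)]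

lemma cnt_le (w : List Bool) (z : Z) : cnt s A i w z ≤ w.length := by
  induction w with
  | nil => simp [cnt]
  | cons b w ih =>
    rw [cnt, List.length_cons]
    split_ifs <;> omega

lemma cnt_append (u v : List Bool) (z : Z) :
    cnt s A i v z ≤ cnt s A i (u ++ v) z := by
  induction u with
  | nil => simp
  | cons b u ih =>
    rw [List.cons_append, cnt]
    omega

end cnt

/-- powers of a word -/
def wpow (u : List Bool) : ℕ → List Bool
  | 0 => []
  | n + 1 => wpow u n ++ u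

lemma walk_wpow {Z : Type*} (s : Bool → Z → Z) (u : List Bool) (n : ℕ) (z : Z) :
    walk s (wpow u n) z = (walk s u)^[n] z := by
  induction n generalizing z with
  | zero => rfl
  | succ n ih => rw [wpow, walk_append, ih, Function.iterate_succ_apply]

lemma Good.walk_cont {Z : Type} [TopologicalSpace Z] {s : Bool → Z → Z} {z0 : Z}
    (hG : Good Z s z0) (w : List Bool) : Continuous (walk s w) := by
  induction w with
  | nil => exact continuous_id
  | cons b w ih => exact (hG.cont b).comp ih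

lemma Good.dense_orbit {Z : Type} [TopologicalSpace Z] {s : Bool → Z → Z} {z0 : Z}
    (hG : Good Z s z0) (U : Set Z) (hU : IsOpen U) (hne : U.Nonempty) :
    ∃ w, walk s w z0 ∈ U := by
  have h : closure (range fun w => walk s w z0) = univ := by
    apply hG.ind (closure (range fun w => walk s w z0)) isClosed_closure
      (subset_closure (mem_range.mpr ⟨[], rfl⟩))
    intro b z hz
    refine map_mem_closure (hG.cont b) hz ?_
    rintro _ ⟨w, rfl⟩
    exact ⟨b :: w, rfl⟩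
  have hd : Dense (range fun w => walk s w z0) := dense_iff_closure_eq.mpr h
  obtain ⟨_, ⟨w, rfl⟩, hw⟩ := hd.exists_mem_open hU hne
  exact ⟨w, hw⟩

lemma Good.exists_return {Z : Type} [TopologicalSpace Z] {s : Bool → Z → Z} {z0 : Z}
    (hG : Good Z s z0) (A M : Set Z) (hA : IsOpen A) (hM : IsOpen M) (hAn : A.Nonempty)
    (hMn : M.Nonempty) (i : Bool) [∀ z, Decidable (z ∈ A)] :
    ∃ z ∈ M, ∃ u : List Bool, walk s u z ∈ M ∧ 1 ≤ cnt s A i u z := by
  obtain ⟨w₁, hw₁⟩ := hG.dense_orbit M hM hMn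
  obtain ⟨w₂, hw₂⟩ := hG.dense_orbit A hA hAn
  -- from `walk w₁ z0` return close to `z0`, then go to `A`
  have h1 : ∃ w, walk s w (walk s w₁ z0) ∈ A := by
    have ho : IsOpen (walk s w₂ ⁻¹' A) := hA.preimage (hG.walk_cont w₂)
    have := (hG.recur w₁ z0).eventually (ho.mem_nhds hw₂)
    obtain ⟨K, hK⟩ := this.exists
    obtain ⟨m, hm⟩ : ∃ m, K.factorial = m + 1 := ⟨K.factorial - 1, by
      have := Nat.factorial_pos K; omega⟩
    refine ⟨w₂ ++ wpow w₁ m, ?_⟩
    rw [walk_append, walk_wpow, ← Function.iterate_succ_apply, Nat.succ_eq_add_one, ← hm]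
    exact hK
  obtain ⟨w, hw⟩ := h1
  set z := walk s w₁ z0 with hz
  have h2 := (hG.recur (i :: w) z).eventually (hM.mem_nhds hw₁)
  obtain ⟨K, hK⟩ := h2.exists
  obtain ⟨m, hm⟩ : ∃ m, K.factorial = m + 1 := ⟨K.factorial - 1, by
      have := Nat.factorial_pos K; omega⟩
  refine ⟨z, hw₁, wpow (i :: w) (m + 1), ?_, ?_⟩
  · rw [walk_wpow, ← hm]; exact hK
  · rw [wpow]
    refine le_trans ?_ (cnt_append s A i _ _ z)
    rw [cnt, if_pos ⟨hw, rfl⟩]
    omega

/-- The suspension of two maps, presented by a quotient map. -/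
structure IsSusp {Z X : Type} [TopologicalSpace Z] [TopologicalSpace X] (s : Bool → Z → Z)
    (q : Z × Bool × unitInterval → X) : Prop where
  cont : Continuous q
  surj : Function.Surjective q
  glue0 : ∀ z b c, q (z, b, 0) = q (z, c, 0)
  glue1 : ∀ z b c, q (z, b, 1) = q (s b z, c, 0)
  inj : ∀ z b t e, 0 < t → t < 1 → q (z, b, t) = q e → e = (z, b, t)
  injv : ∀ z z', q (z, false, 0) = q (z', false, 0) → z = z'

lemma exists_interior_param (U : Set unitInterval) (hU : IsOpen U) (hne : U.Nonempty) :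
    ∃ t ∈ U, 0 < t ∧ t < 1 := by
  have hd : Dense (univ \ (({0, 1} : Finset unitInterval) : Set unitInterval)) :=
    (dense_univ (X := unitInterval)).sdiff_finset {0, 1}
  obtain ⟨t, ht, htU⟩ := hd.exists_mem_open hU hne
  refine ⟨t, htU, ?_, ?_⟩
  · exact unitInterval.pos_iff_ne_zero.mpr (by rintro rfl; simp at ht)
  · exact unitInterval.lt_one_iff_ne_one.mpr (by rintro rfl; simp at ht)

section
variable {Z X : Type} [TopologicalSpace Z] [CompactSpace Z] [TopologicalSpace X] [T2Space X]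
  {s : Bool → Z → Z} {z0 : Z} {q : Z × Bool × unitInterval → X}

lemma IsSusp.isQuotientMap (hq : IsSusp s q) : IsQuotientMap q :=
  (hq.cont.isClosedMap).isQuotientMap hq.cont hq.surj

/-- A function on the pieces which respects the gluing. -/
lemma IsSusp.eq_of_eq (hq : IsSusp s q) {D : Type} (F : Z × Bool × unitInterval → D)
    (h0 : ∀ z b c, F (z, b, 0) = F (z, c, 0)) (h1 : ∀ z b c, F (z, b, 1) = F (s b z, c, 0))
    (e e' : Z × Bool × unitInterval) (h : q e = q e') : F e = F e' := by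
  -- reduce an end point to a vertex
  have hend : ∀ e : Z × Bool × unitInterval, (e.2.2 = 0 ∨ e.2.2 = 1) →
      ∃ v, q e = q (v, false, 0) ∧ F e = F (v, false, 0) := by
    rintro ⟨z, b, t⟩ (ht | ht)
    · simp only at ht; subst ht; exact ⟨z, hq.glue0 _ _ _, h0 _ _ _⟩
    · simp only at ht; subst ht; exact ⟨s b z, hq.glue1 _ _ _, h1 _ _ _⟩
  have hint : ∀ e : Z × Bool × unitInterval, (e.2.2 = 0 ∨ e.2.2 = 1) ∨
      (0 < e.2.2 ∧ e.2.2 < 1) := by
    rintro ⟨z, b, t⟩
    by_cases h0 : t = 0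
    · exact Or.inl (Or.inl h0)
    · by_cases h1 : t = 1
      · exact Or.inl (Or.inr h1)
      · exact Or.inr ⟨unitInterval.pos_iff_ne_zero.mpr h0, unitInterval.lt_one_iff_ne_one.mpr h1⟩
  rcases hint e with he | he
  · rcases hint e' with he' | he'
    · obtain ⟨v, hv, hFv⟩ := hend e he
      obtain ⟨v', hv', hFv'⟩ := hend e' he'
      rw [hv, hv'] at h
      rw [hFv, hFv', hq.injv _ _ h]
    · have := hq.inj e'.1 e'.2.1 e'.2.2 e he'.1 he'.2 h.symm
      rw [this]
  · have := hq.inj e.1 e.2.1 e.2.2 e' he.1 he.2 h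
    rw [this]

/-- Every proper closed connected subset of the suspension has empty interior. -/
theorem IsSusp.interior_eq_empty (hG : Good Z s z0) (hq : IsSusp s q) (W : Set X)
    (hWc : IsClosed W) (hW : IsPreconnected W) (hne : W ≠ univ) : interior W = ∅ := by
  classical
  by_contra hint
  -- Step 1: the cut
  obtain ⟨x, hx⟩ := (ne_univ_iff_exists_notMem W).mp hne
  obtain ⟨⟨z₀, i, t⟩, rfl⟩ := hq.surj x
  obtain ⟨t₀, ht₀, ht₀0, ht₀1⟩ : ∃ t₀, q (z₀, i, t₀) ∈ Wᶜ ∧ 0 < t₀ ∧ t₀ < 1 := by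
    have ho : IsOpen {t' | q (z₀, i, t') ∈ Wᶜ} :=
      hWc.isOpen_compl.preimage (hq.cont.comp (by fun_prop))
    exact exists_interior_param _ ho ⟨t, hx⟩
  obtain ⟨A, hA, hzA, hAW, hcoc⟩ := hG.coc {z | q (z, i, t₀) ∈ Wᶜ} z₀
    (hWc.isOpen_compl.preimage (hq.cont.comp (by fun_prop))) ht₀
  -- Step 2: the box inside `W`
  obtain ⟨x₁, hx₁⟩ := nonempty_iff_ne_empty.mpr hint
  obtain ⟨⟨z₁, j, t₁⟩, rfl⟩ := hq.surj x₁
  have hO₁ : IsOpen {z | q (z, j, t₁) ∈ interior W} :=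
    isOpen_interior.preimage (hq.cont.comp (by fun_prop))
  obtain ⟨M, hMo, hz₁M, hMW, hMA⟩ : ∃ M : Set Z, IsOpen M ∧ z₁ ∈ M ∧ (∀ z ∈ M, q (z, j, t₁) ∈ W) ∧
      (∀ z ∈ M, ∀ z' ∈ M, (z ∈ A ↔ z' ∈ A)) := by
    by_cases h : z₁ ∈ A
    · refine ⟨{z | q (z, j, t₁) ∈ interior W} ∩ A, hO₁.inter hA.isOpen, ⟨hx₁, h⟩, ?_, ?_⟩
      · intro z hz; exact interior_subset hz.1
      · intro z hz z' hz'; exact ⟨fun _ => hz'.2, fun _ => hz.2⟩
    · refine ⟨{z | q (z, j, t₁) ∈ interior W} ∩ Aᶜ, hO₁.inter hA.compl.isOpen, ⟨hx₁, h⟩, ?_, ?_⟩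
      · intro z hz; exact interior_subset hz.1
      · intro z hz z' hz'; exact ⟨fun h => absurd h hz.2, fun h => absurd h hz'.2⟩
  -- Step 3: a return
  obtain ⟨z, hzM, u, huM, hcnt⟩ := hG.exists_return A M hA.isOpen hMo ⟨z₀, hzA⟩ ⟨z₁, hz₁M⟩ i
  -- Step 4: the cocycle
  have hlen := cnt_le s A i u z
  have : NeZero (u.length + 1) := ⟨by omega⟩
  obtain ⟨f, hf, hfc⟩ := hcoc i (u.length + 1)
  have hfw : ∀ w : List Bool, f (walk s w z) = f z + (cnt s A i w z : ZMod (u.length + 1)) := by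
    intro w
    induction w with
    | nil => simp [cnt]
    | cons b w ih =>
      rw [walk_cons, cnt]
      by_cases h : walk s w z ∈ A ∧ b = i
      · rw [(hfc b _).1 h, ih, if_pos h]; push_cast; ring
      · rw [(hfc b _).2 h, ih, if_neg h]; simp
  have hfne : f (walk s u z) ≠ f z := by
    rw [hfw u]
    intro h
    have h0 : ((cnt s A i u z : ℕ) : ZMod (u.length + 1)) = 0 := by
      simpa using h
    rw [ZMod.natCast_eq_zero_iff] at h0
    have := Nat.le_of_dvd (by omega) h0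
    omega
  -- Step 5: the function `F`
  let F : Z × Bool × unitInterval → ZMod (u.length + 1) := fun e =>
    f e.1 + if e.1 ∈ A ∧ e.2.1 = i ∧ t₀ < e.2.2 then 1 else 0
  have hF0 : ∀ z b, F (z, b, 0) = f z := by
    intro z b
    show f z + (if z ∈ A ∧ b = i ∧ t₀ < 0 then 1 else 0) = _
    rw [if_neg (by rintro ⟨_, _, h⟩; exact absurd h (not_lt.mpr (unitInterval.nonneg' ))), add_zero]
  have hF1 : ∀ z b, F (z, b, 1) = f (s b z) := by
    intro z b
    show f z + (if z ∈ A ∧ b = i ∧ t₀ < 1 then 1 else 0) = _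
    by_cases h : z ∈ A ∧ b = i
    · rw [if_pos ⟨h.1, h.2, ht₀1⟩, (hfc b z).1 h]
    · rw [if_neg (fun h' => h ⟨h'.1, h'.2.1⟩), (hfc b z).2 h, add_zero]
  have hFeq : ∀ e e', q e = q e' → F e = F e' := by
    intro e e' h
    exact hq.eq_of_eq F (fun z b c => by rw [hF0, hF0]) (fun z b c => by rw [hF1, hF0]) e e' h
  -- the complement of the cut
  let N : Set (Z × Bool × unitInterval) := {e | ¬ (e.1 ∈ A ∧ e.2.1 = i ∧ e.2.2 = t₀)}
  have hNsat : ∀ e e', q e = q e' → e ∈ N → e' ∈ N := by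
    intro e e' h he he'
    obtain ⟨z', b', t'⟩ := e'
    obtain ⟨h1, h2, h3⟩ := he'
    simp only at h1 h2 h3
    subst h2; subst h3
    have := hq.inj z' b' t' e ht₀0 ht₀1 h.symm
    rw [this] at he
    exact he ⟨h1, rfl, rfl⟩
  have hWN : ∀ e, q e ∈ W → e ∈ N := by
    rintro ⟨z', b', t'⟩ he ⟨h1, h2, h3⟩
    simp only at h1 h2 h3
    subst h2; subst h3
    exact hAW h1 he
  -- openness of the pieces
  have hopen : ∀ S : Set (ZMod (u.length + 1)), IsOpen (N ∩ F ⁻¹' S) := by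
    intro S
    have hS : IsOpen {y : Z | f y ∈ S} := (isOpen_discrete S).preimage hf
    have hS' : IsOpen {y : Z | f y + 1 ∈ S} :=
      (isOpen_discrete {c : ZMod (u.length + 1) | c + 1 ∈ S}).preimage hf
    have hb : IsOpen {b : Bool | b = i} := isOpen_discrete _
    have hb' : IsOpen {b : Bool | b ≠ i} := isOpen_discrete _
    have hlt : IsOpen {τ : unitInterval | τ < t₀} := isOpen_Iio
    have hgt : IsOpen {τ : unitInterval | t₀ < τ} := isOpen_Ioi
    have hset : N ∩ F ⁻¹' S =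
        (({y | f y ∈ S} ∩ Aᶜ) ×ˢ (univ : Set (Bool × unitInterval))) ∪
        (({y | f y ∈ S}) ×ˢ ({b : Bool | b ≠ i} ×ˢ (univ : Set unitInterval))) ∪
        (({y | f y ∈ S}) ×ˢ ((univ : Set Bool) ×ˢ {τ : unitInterval | τ < t₀})) ∪
        (({y | f y + 1 ∈ S} ∩ A) ×ˢ ({b : Bool | b = i} ×ˢ {τ : unitInterval | t₀ < τ})) := by
      ext ⟨y, b, τ⟩
      simp only [N, F, mem_inter_iff, mem_ofPred_eq, mem_preimage, mem_union, mem_prod, mem_compl_iff,
        mem_univ, and_true, true_and]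
      by_cases h1 : y ∈ A <;> by_cases h2 : b = i <;> rcases lt_trichotomy τ t₀ with h3 | h3 | h3
      all_goals first
        | (simp [h1, h2, h3, h3.not_gt, h3.ne]; done)
        | (simp [h1, h2, h3, h3.not_gt, h3.ne']; done)
        | (simp [h1, h2, h3]; done)
    rw [hset]
    refine ((IsOpen.union ?_ ?_).union ?_).union ?_
    · exact (hS.inter hA.compl.isOpen).prod isOpen_univ
    · exact hS.prod (hb'.prod isOpen_univ)
    · exact hS.prod (isOpen_univ.prod hlt)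
    · exact (hS'.inter hA.isOpen).prod (hb.prod hgt)
  have hqopen : ∀ S : Set (ZMod (u.length + 1)), IsOpen (q '' (N ∩ F ⁻¹' S)) := by
    intro S
    rw [← hq.isQuotientMap.isOpen_preimage]
    have : q ⁻¹' (q '' (N ∩ F ⁻¹' S)) = N ∩ F ⁻¹' S := by
      ext e
      constructor
      · rintro ⟨e', ⟨h1, h2⟩, h3⟩
        refine ⟨hNsat _ _ h3 h1, ?_⟩
        rw [mem_preimage, ← hFeq _ _ h3]; exact h2
      · intro he; exact ⟨e, he, rfl⟩
    rw [this]
    exact hopen S
  -- conclusion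
  let c := F (z, j, t₁)
  have hdisj : Disjoint (q '' (N ∩ F ⁻¹' {c})) (q '' (N ∩ F ⁻¹' {c}ᶜ)) := by
    rw [Set.disjoint_left]
    rintro _ ⟨e, ⟨_, he⟩, rfl⟩ ⟨e', ⟨_, he'⟩, h⟩
    apply he'
    rw [hFeq _ _ h]; exact he
  have hcov : W ⊆ (q '' (N ∩ F ⁻¹' {c})) ∪ (q '' (N ∩ F ⁻¹' {c}ᶜ)) := by
    intro x hx
    obtain ⟨e, rfl⟩ := hq.surj x
    by_cases h : F e = c
    · exact Or.inl ⟨e, ⟨hWN e hx, h⟩, rfl⟩
    · exact Or.inr ⟨e, ⟨hWN e hx, h⟩, rfl⟩
  have hsub := hW.subset_left_of_subset_union (hqopen _) (hqopen _) hdisj hcov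
    ⟨q (z, j, t₁), hMW z hzM, ⟨(z, j, t₁), ⟨hWN _ (hMW z hzM), rfl⟩, rfl⟩⟩
  obtain ⟨e, ⟨_, he⟩, h⟩ := hsub (hMW (walk s u z) huM)
  have h1 : F (walk s u z, j, t₁) = F (z, j, t₁) := by
    rw [← hFeq _ _ h]; exact he
  apply hfne
  have h2 : (if walk s u z ∈ A ∧ j = i ∧ t₀ < t₁ then (1 : ZMod (u.length + 1)) else 0) =
      if z ∈ A ∧ j = i ∧ t₀ < t₁ then 1 else 0 := by
    have := hMA _ huM _ hzM
    simp only [this]
  have h3 : f (walk s u z) + (if walk s u z ∈ A ∧ j = i ∧ t₀ < t₁ then (1 : ZMod (u.length + 1))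
      else 0) = f z + if z ∈ A ∧ j = i ∧ t₀ < t₁ then 1 else 0 := h1
  rw [h2] at h3
  exact add_right_cancel h3

end

end Pool.Agent.Helper91
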