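import Mathlib
import Pool.Agent.Helper91.Susp

/-!
The subcontinua of the square of the suspension.
-/

open Set Filter Topology

namespace Pool.Agent.Helper91

section
variable {Z X : Type} [TopologicalSpace Z] [TopologicalSpace X]

/-- Petal `j`, together with the initial third of every edge. -/
def Lset (q : Z × Bool × unitInterval → X) (j : Bool) : Set X :=
  q '' {e | e.2.1 = j ∨ (e.2.2 : ℝ) ≤ 1 / 3}

/-- A thin band in petal `j`. -/
def Nset (q : Z × Bool × unitInterval → X) (j : Bool) : Set X :=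
  q '' {e | e.2.1 = j ∧ 1 / 4 ≤ (e.2.2 : ℝ) ∧ (e.2.2 : ℝ) ≤ 1 / 3}

def Wset (q : Z × Bool × unitInterval → X) : Set (X × X) :=
  ⋃ j, (Lset q j ×ˢ Nset q j) ∪ (Nset q (!j) ×ˢ Lset q j)

lemma Lset_compact [CompactSpace Z] {q : Z × Bool × unitInterval → X} (hq : Continuous q)
    (j : Bool) : IsCompact (Lset q j) := by
  apply IsCompact.image _ hq
  apply IsClosed.isCompact
  have h1 : IsClosed {e : Z × Bool × unitInterval | e.2.1 = j} :=
    isClosed_eq (by fun_prop) (by fun_prop)
  have h2 : IsClosed {e : Z × Bool × unitInterval | (e.2.2 : ℝ) ≤ 1 / 3} :=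
    isClosed_le (by fun_prop) (by fun_prop)
  exact h1.union h2

lemma Nset_compact [CompactSpace Z] {q : Z × Bool × unitInterval → X} (hq : Continuous q)
    (j : Bool) : IsCompact (Nset q j) := by
  apply IsCompact.image _ hq
  apply IsClosed.isCompact
  have h1 : IsClosed {e : Z × Bool × unitInterval | e.2.1 = j} :=
    isClosed_eq (by fun_prop) (by fun_prop)
  have h2 : IsClosed {e : Z × Bool × unitInterval | (e.2.2 : ℝ) ≤ 1 / 3} :=
    isClosed_le (by fun_prop) (by fun_prop)
  have h3 : IsClosed {e : Z × Bool × unitInterval | 1 / 4 ≤ (e.2.2 : ℝ)} :=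
    isClosed_le (by fun_prop) (by fun_prop)
  exact h1.inter (h3.inter h2)

lemma Wset_compact [CompactSpace Z] {q : Z × Bool × unitInterval → X} (hq : Continuous q) :
    IsCompact (Wset q) := by
  apply isCompact_iUnion
  intro j
  exact ((Lset_compact hq j).prod (Nset_compact hq j)).union
    ((Nset_compact hq _).prod (Lset_compact hq j))

/-- the parameter `1/4` -/
noncomputable def quarter : unitInterval := ⟨1 / 4, by norm_num, by norm_num⟩

lemma Lset_const {q : Z × Bool × unitInterval → X} (hq : Continuous q) (j : Bool)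
    (F : X → Bool) (hF : ContinuousOn F (Lset q j)) (z : Z) (b : Bool) (t : unitInterval)
    (h : b = j ∨ (t : ℝ) ≤ 1 / 3) : F (q (z, b, t)) = F (q (z, b, 0)) := by
  have hc : ContinuousOn (fun τ : unitInterval => F (q (z, b, τ))) (Icc 0 t) := by
    refine hF.comp (hq.comp (by fun_prop)).continuousOn ?_
    intro τ hτ
    refine ⟨(z, b, τ), ?_, rfl⟩
    rcases h with h | h
    · exact Or.inl h
    · exact Or.inr (le_trans (by exact_mod_cast hτ.2) h)
  exact isPreconnected_Icc.constant hc ⟨unitInterval.nonneg', le_rfl⟩ ⟨le_rfl, unitInterval.nonneg'⟩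

lemma Nset_const {q : Z × Bool × unitInterval → X} (hq : Continuous q) (j : Bool)
    (F : X → Bool) (hF : ContinuousOn F (Nset q j)) (z : Z) (t : unitInterval)
    (h : 1 / 4 ≤ (t : ℝ)) (h' : (t : ℝ) ≤ 1 / 3) : F (q (z, j, t)) = F (q (z, j, quarter)) := by
  have hc : ContinuousOn (fun τ : unitInterval => F (q (z, j, τ))) (Icc quarter t) := by
    refine hF.comp (hq.comp (by fun_prop)).continuousOn ?_
    intro τ hτ
    refine ⟨(z, j, τ), ⟨rfl, ?_, ?_⟩, rfl⟩
    · have : (quarter : ℝ) ≤ (τ : ℝ) := by exact_mod_cast hτ.1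
      simpa [quarter] using this
    · exact le_trans (by exact_mod_cast hτ.2) h'
  have hle : quarter ≤ t := by
    rw [← Subtype.coe_le_coe]
    simpa [quarter] using h
  exact isPreconnected_Icc.constant hc ⟨hle, le_rfl⟩ ⟨le_rfl, hle⟩

theorem Wset_isPreconnected {q : Z × Bool × unitInterval → X} (hq : Continuous q)
    (α : Bool → Z ≃ₜ Z) (β : Bool → Z → Z) (ν : Z → X) (hν : Continuous ν)
    (h0 : ∀ z b, q (z, b, 0) = ν (α b z)) (h1 : ∀ z b, q (z, b, 1) = ν (β b z))
    (hinv : ∀ C : Set (Z × Z), IsClopen C →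
      (∀ b z v, (α b z, v) ∈ C ↔ (β b z, v) ∈ C) →
      (∀ b z v, (v, α b z) ∈ C ↔ (v, β b z) ∈ C) → C = ∅ ∨ C = univ) :
    IsPreconnected (Wset q) := by
  have hq4 : (quarter : ℝ) = 1 / 4 := rfl
  have hLmem : ∀ z b j t, (b = j ∨ ((t : unitInterval) : ℝ) ≤ 1 / 3) → q (z, b, t) ∈ Lset q j :=
    fun z b j t h => ⟨(z, b, t), h, rfl⟩
  have hNmem : ∀ z j, q (z, j, quarter) ∈ Nset q j :=
    fun z j => ⟨(z, j, quarter), ⟨rfl, by rw [hq4], by rw [hq4]; norm_num⟩, rfl⟩
  have hνL : ∀ v j, ν v ∈ Lset q j := by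
    intro v j
    have : ν v = q ((α j).symm v, j, 0) := by rw [h0, Homeomorph.apply_symm_apply]
    rw [this]
    exact hLmem _ _ _ _ (Or.inl rfl)
  have hWLN : ∀ j x y, x ∈ Lset q j → y ∈ Nset q j → (x, y) ∈ Wset q :=
    fun j x y hx hy => mem_iUnion.mpr ⟨j, Or.inl ⟨hx, hy⟩⟩
  have hWNL : ∀ j x y, x ∈ Nset q (!j) → y ∈ Lset q j → (x, y) ∈ Wset q :=
    fun j x y hx hy => mem_iUnion.mpr ⟨j, Or.inr ⟨hx, hy⟩⟩
  have hWNL' : ∀ j x y, x ∈ Nset q j → y ∈ Lset q (!j) → (x, y) ∈ Wset q := by
    intro j x y hx hy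
    exact hWNL (!j) x y (by simpa using hx) hy
  apply isPreconnected_of_forall_constant
  intro f hf
  -- restrictions of `f`
  have hfL : ∀ j y, y ∈ Nset q j → ContinuousOn (fun x => f (x, y)) (Lset q j) := by
    intro j y hy
    exact hf.comp (by fun_prop) (fun x hx => hWLN j x y hx hy)
  have hfL' : ∀ j x, x ∈ Nset q j → ContinuousOn (fun y => f (x, y)) (Lset q (!j)) := by
    intro j x hx
    exact hf.comp (by fun_prop) (fun y hy => hWNL' j x y hx hy)
  have hfN : ∀ j x, x ∈ Lset q j → ContinuousOn (fun y => f (x, y)) (Nset q j) := by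
    intro j x hx
    exact hf.comp (by fun_prop) (fun y hy => hWLN j x y hx hy)
  have hfN' : ∀ j y, y ∈ Lset q (!j) → ContinuousOn (fun x => f (x, y)) (Nset q j) := by
    intro j y hy
    exact hf.comp (by fun_prop) (fun x hx => hWNL' j x y hx hy)
  -- Claim 1
  have c1 : ∀ j y, y ∈ Nset q j → ∀ z b t, (b = j ∨ ((t : unitInterval) : ℝ) ≤ 1 / 3) →
      f (q (z, b, t), y) = f (ν (α b z), y) := by
    intro j y hy z b t h
    have := Lset_const hq j _ (hfL j y hy) z b t h
    rw [h0] at this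
    exact this
  have c1' : ∀ j y, y ∈ Nset q j → ∀ z, f (ν (β j z), y) = f (ν (α j z), y) := by
    intro j y hy z
    rw [← c1 j y hy z j 1 (Or.inl rfl), h1]
  have c2 : ∀ j x, x ∈ Nset q j → ∀ z b t, (b = !j ∨ ((t : unitInterval) : ℝ) ≤ 1 / 3) →
      f (x, q (z, b, t)) = f (x, ν (α b z)) := by
    intro j x hx z b t h
    have := Lset_const hq (!j) _ (hfL' j x hx) z b t h
    rw [h0] at this
    exact this
  have c2' : ∀ j x, x ∈ Nset q j → ∀ z, f (x, ν (β (!j) z)) = f (x, ν (α (!j) z)) := by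
    intro j x hx z
    rw [← c2 j x hx z (!j) 1 (Or.inl rfl), h1]
  have hq3 : (quarter : ℝ) ≤ 1 / 3 := by rw [hq4]; norm_num
  -- the two descriptions of the function on pairs of vertices
  let g : Z × Z → Bool := fun v => f (ν v.1, q ((α false).symm v.2, false, quarter))
  have gH : ∀ v v' b, g (v, v') = f (q ((α b).symm v, b, quarter), ν v') := by
    intro v v' b
    have e1 := c1 false _ (hNmem ((α false).symm v') false) ((α b).symm v) b quarter (Or.inr hq3)
    rw [Homeomorph.apply_symm_apply] at e1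
    have e2 := c2 b _ (hNmem ((α b).symm v) b) ((α false).symm v') false quarter (Or.inr hq3)
    rw [Homeomorph.apply_symm_apply] at e2
    show f (ν v, q ((α false).symm v', false, quarter)) = _
    rw [← e1, e2]
  have gH' : ∀ v v' b, g (v, v') = f (ν v, q ((α b).symm v', b, quarter)) := by
    intro v v' b
    have e1 := c1 b _ (hNmem ((α b).symm v') b) ((α false).symm v) false quarter (Or.inr hq3)
    rw [Homeomorph.apply_symm_apply] at e1
    have e2 := c2 false _ (hNmem ((α false).symm v) false) ((α b).symm v') b quarter (Or.inr hq3)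
    rw [Homeomorph.apply_symm_apply] at e2
    rw [gH v v' false, ← e1, e2]
  have hgc : Continuous g := by
    have : ContinuousOn f (Wset q) := hf
    refine this.comp_continuous (f := fun v : Z × Z =>
      (ν v.1, q ((α false).symm v.2, false, quarter))) ?_ ?_
    · refine (hν.comp continuous_fst).prodMk (hq.comp ?_)
      exact ((α false).symm.continuous.comp continuous_snd).prodMk continuous_const
    · intro v
      exact hWLN false _ _ (hνL _ _) (hNmem _ _)
  have hg1 : ∀ b z v, g (α b z, v) = g (β b z, v) := by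
    intro b z v
    rw [gH' _ _ b, gH' _ _ b]
    exact (c1' b _ (hNmem _ _) z).symm
  have hg2 : ∀ b z v, g (v, α b z) = g (v, β b z) := by
    intro b z v
    rw [gH _ _ (!b), gH _ _ (!b)]
    have := c2' (!b) _ (hNmem ((α (!b)).symm v) (!b)) z
    simpa using this.symm
  have hconst : ∃ c, ∀ v, g v = c := by
    have hcl : IsClopen (g ⁻¹' {true}) := (isClopen_discrete _).preimage hgc
    rcases hinv _ hcl (by
      intro b z v; simp only [mem_preimage]; rw [hg1]) (by
      intro b z v; simp only [mem_preimage]; rw [hg2]) with h | h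
    · refine ⟨false, fun v => ?_⟩
      have : v ∉ g ⁻¹' {true} := by rw [h]; exact notMem_empty _
      simpa using this
    · refine ⟨true, fun v => ?_⟩
      have : v ∈ g ⁻¹' {true} := by rw [h]; trivial
      simpa using this
  obtain ⟨c, hc⟩ := hconst
  have main : ∀ p ∈ Wset q, f p = c := by
    rintro ⟨x, y⟩ hp
    obtain ⟨j, hp⟩ := mem_iUnion.mp hp
    rcases hp with ⟨hx, hy⟩ | ⟨hx, hy⟩
    · obtain ⟨⟨z, b, t⟩, ht, rfl⟩ := hx
      have hy' := hy
      obtain ⟨⟨z', b', t'⟩, ⟨hb', ht1, ht2⟩, rfl⟩ := hy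
      simp only at hb' ht1 ht2 ht
      subst hb'
      rw [c1 b' _ hy' z b t ht]
      have := Nset_const hq b' _ (hfN b' (ν (α b z)) (hνL _ _)) z' t' ht1 ht2
      rw [this]
      have e := gH' (α b z) (α b' z') b'
      rw [Homeomorph.symm_apply_apply] at e
      rw [← e]; exact hc _
    · obtain ⟨⟨z', b', t'⟩, ht', rfl⟩ := hy
      have hx' := hx
      obtain ⟨⟨z, b, t⟩, ⟨hb, ht1, ht2⟩, rfl⟩ := hx
      simp only at hb ht1 ht2 ht'
      subst hb
      rw [c2 (!j) _ hx' z' b' t' (by simpa using ht')]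
      have := Nset_const hq (!j) _ (hfN' (!j) (ν (α b' z')) (hνL _ _)) z t ht1 ht2
      rw [this]
      have e := gH (α (!j) z) (α b' z') (!j)
      rw [Homeomorph.symm_apply_apply] at e
      rw [← e]; exact hc _
  intro x hx y hy
  rw [main x hx, main y hy]

end

end Pool.Agent.Helper91
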