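import Mathlib
import Pool.Agent.Helper91.Cross

/-!
A metrizable realisation of the suspension, and the two disjoint subcontinua of its square.
-/

open Set Filter Topology

namespace Pool.Agent.Helper91

/-- the ambient space of the realisation -/
abbrev Amb (Λ : Type) : Type := (Λ → ℝ) × (Bool → Λ → ℝ) × (Bool → ℝ) × (Bool → ℝ)

/-- the realisation map -/
noncomputable def Phi {Z Λ : Type} (s : Bool → Z → Z) (j : Z → Λ → ℝ)
    (e : Z × Bool × unitInterval) : Amb Λ :=
  (fun l => (1 - (e.2.2 : ℝ)) * j e.1 l + (e.2.2 : ℝ) * j (s e.2.1 e.1) l,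
   fun c l => (if c = e.2.1 then (e.2.2 : ℝ) * (1 - e.2.2) else 0) * j e.1 l,
   fun c => if c = e.2.1 then (e.2.2 : ℝ) * (1 - e.2.2) else 0,
   fun c => if c = e.2.1 then (e.2.2 : ℝ) * ((e.2.2 : ℝ) * (1 - e.2.2)) else 0)

lemma Phi_cont {Z Λ : Type} [TopologicalSpace Z] (s : Bool → Z → Z) (hs : ∀ b, Continuous (s b))
    (j : Z → Λ → ℝ) (hj : Continuous j) : Continuous (Phi s j) := by
  have h : Continuous (fun p : Bool × (Z × unitInterval) => Phi s j (p.2.1, p.1, p.2.2)) := by
    rw [continuous_prod_of_discrete_left]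
    intro b
    have hj' : ∀ l, Continuous fun z => j z l := fun l => (continuous_apply l).comp hj
    have hjs : ∀ l, Continuous fun z => j (s b z) l := fun l => (hj' l).comp (hs b)
    unfold Phi
    refine Continuous.prodMk ?_ (Continuous.prodMk ?_ (Continuous.prodMk ?_ ?_))
    · refine continuous_pi fun l => ?_
      have h1 : Continuous fun x : Z × unitInterval => j x.1 l := (hj' l).comp continuous_fst
      have h2 : Continuous fun x : Z × unitInterval => j (s b x.1) l := (hjs l).comp continuous_fst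
      have h3 : Continuous fun x : Z × unitInterval => (x.2 : ℝ) := by fun_prop
      exact ((continuous_const.sub h3).mul h1).add (h3.mul h2)
    · refine continuous_pi fun c => continuous_pi fun l => ?_
      have h1 : Continuous fun x : Z × unitInterval => j x.1 l := (hj' l).comp continuous_fst
      by_cases hc : c = b
      · simp only [hc, if_true]; fun_prop
      · simp only [hc, if_false]; fun_prop
    · refine continuous_pi fun c => ?_
      by_cases hc : c = b
      · simp only [hc, if_true]; fun_prop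
      · simp only [hc, if_false]; fun_prop
    · refine continuous_pi fun c => ?_
      by_cases hc : c = b
      · simp only [hc, if_true]; fun_prop
      · simp only [hc, if_false]; fun_prop
  exact h.comp (g := fun p : Bool × (Z × unitInterval) => Phi s j (p.2.1, p.1, p.2.2))
    (f := fun e : Z × Bool × unitInterval => (e.2.1, (e.1, e.2.2))) (by fun_prop)

/-- the realised suspension -/
abbrev XX {Z Λ : Type} (s : Bool → Z → Z) (j : Z → Λ → ℝ) : Type := ↥(range (Phi s j))

noncomputable def qq {Z Λ : Type} (s : Bool → Z → Z) (j : Z → Λ → ℝ) (e : Z × Bool × unitInterval) :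
    XX s j := ⟨Phi s j e, mem_range_self e⟩

lemma isSusp_qq {Z Λ : Type} [TopologicalSpace Z] (s : Bool → Z → Z) (hs : ∀ b, Continuous (s b))
    (j : Z → Λ → ℝ) (hj : Continuous j) (hinj : Function.Injective j) :
    IsSusp s (qq s j) where
  cont := (Phi_cont s hs j hj).subtype_mk _
  surj := by rintro ⟨_, e, rfl⟩; exact ⟨e, rfl⟩
  glue0 := by
    intro z b c
    apply Subtype.ext
    show Phi s j (z, b, 0) = Phi s j (z, c, 0)
    simp [Phi]
  glue1 := by
    intro z b c
    apply Subtype.ext
    show Phi s j (z, b, 1) = Phi s j (s b z, c, 0)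
    simp [Phi]
  inj := by
    rintro z b t ⟨z', b', t'⟩ h0 h1 h
    have h : Phi s j (z, b, t) = Phi s j (z', b', t') := congrArg Subtype.val h
    simp only [Phi, Prod.mk.injEq] at h
    obtain ⟨-, h2, h3, h4⟩ := h
    have ht0 : (0 : ℝ) < t := by exact_mod_cast h0
    have ht1 : (t : ℝ) < 1 := by exact_mod_cast h1
    have hpos : 0 < (t : ℝ) * (1 - t) := mul_pos ht0 (by linarith)
    have h3b := congrFun h3 b
    have h4b := congrFun h4 b
    have h2b := congrFun h2 b
    simp only [if_true] at h3b h4b h2b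
    by_cases hb : b = b'
    · subst hb
      simp only [if_true] at h3b h4b h2b
      have ht : (t : ℝ) = t' := by
        rw [← h3b] at h4b
        exact mul_right_cancel₀ hpos.ne' h4b
      have ht' : t = t' := Subtype.ext ht
      subst ht'
      have hz : z = z' := by
        apply hinj
        funext l
        have := congrFun h2b l
        exact mul_left_cancel₀ hpos.ne' this
      rw [hz]
    · rw [if_neg hb] at h3b
      exact absurd h3b hpos.ne'
  injv := by
    intro z z' h
    have h : Phi s j (z, false, 0) = Phi s j (z', false, 0) := congrArg Subtype.val h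
    simp only [Phi, Prod.mk.injEq] at h
    apply hinj
    funext l
    have := congrFun h.1 l
    simpa using this

section
variable {Z X : Type} [TopologicalSpace Z] [CompactSpace Z] [TopologicalSpace X] [T2Space X]
  {s : Bool → Z → Z} {z0 : Z} {q : Z × Bool × unitInterval → X}

/-- An invariant clopen subset of the square is trivial. -/
lemma Good.square (hG : Good Z s z0) (C : Set (Z × Z)) (hC : IsClopen C)
    (h1 : ∀ b z v, (z, v) ∈ C ↔ (s b z, v) ∈ C)
    (h2 : ∀ b z v, (v, z) ∈ C ↔ (v, s b z) ∈ C) : C = ∅ ∨ C = univ := by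
  have key : ∀ D : Set (Z × Z), IsClosed D → (∀ b z v, (z, v) ∈ D ↔ (s b z, v) ∈ D) →
      (∀ b z v, (v, z) ∈ D ↔ (v, s b z) ∈ D) → (z0, z0) ∈ D → D = univ := by
    intro D hD h1 h2 h0
    have e1 : {z | (z, z0) ∈ D} = univ := by
      apply hG.ind {z | (z, z0) ∈ D} (hD.preimage (f := fun z => (z, z0)) (by fun_prop)) h0
      intro b z hz
      exact (h1 b z z0).mp hz
    apply eq_univ_of_forall
    rintro ⟨z, v⟩
    have hz : (z, z0) ∈ D := by
      have : z ∈ {z | (z, z0) ∈ D} := by rw [e1]; trivial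
      exact this
    have e2 : {v | (z, v) ∈ D} = univ := by
      apply hG.ind {v | (z, v) ∈ D} (hD.preimage (f := fun v => (z, v)) (by fun_prop)) hz
      intro b v hv
      exact (h2 b v z).mp hv
    have : v ∈ {v | (z, v) ∈ D} := by rw [e2]; trivial
    exact this
  by_cases h : (z0, z0) ∈ C
  · exact Or.inr (key C hC.isClosed h1 h2 h)
  · left
    have := key Cᶜ hC.compl.isClosed (fun b z v => by simp only [mem_compl_iff]; rw [h1])
      (fun b z v => by simp only [mem_compl_iff]; rw [h2]) h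
    simpa using this

/-- The suspension is connected. -/
lemma IsSusp.connectedSpace (hG : Good Z s z0) (hq : IsSusp s q) : ConnectedSpace X := by
  have hpre : PreconnectedSpace X := by
    apply preconnectedSpace_of_forall_constant
    intro f hf
    have hedge : ∀ z b t, f (q (z, b, t)) = f (q (z, b, 0)) := by
      intro z b t
      have hc : Continuous fun τ : unitInterval => f (q (z, b, τ)) :=
        hf.comp (hq.cont.comp (by fun_prop))
      exact isPreconnected_univ.constant hc.continuousOn (mem_univ t) (mem_univ 0)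
    have hall : ∀ v, f (q (v, false, 0)) = f (q (z0, false, 0)) := by
      have := hG.ind {v | f (q (v, false, 0)) = f (q (z0, false, 0))}
        (isClosed_eq (hf.comp (hq.cont.comp (by fun_prop))) continuous_const) rfl (by
          intro b z hz
          show f (q (s b z, false, 0)) = _
          rw [← hq.glue1 z b false, hedge, hq.glue0 z b false]
          exact hz)
      intro v
      have hv : v ∈ {v | f (q (v, false, 0)) = f (q (z0, false, 0))} := by rw [this]; trivial
      exact hv
    intro x y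
    obtain ⟨⟨z, b, t⟩, rfl⟩ := hq.surj x
    obtain ⟨⟨z', b', t'⟩, rfl⟩ := hq.surj y
    rw [hedge, hedge z', hq.glue0 z b false, hq.glue0 z' b' false, hall, hall z']
  have : Nonempty X := ⟨q (z0, false, 0)⟩
  exact { toPreconnectedSpace := hpre, toNonempty := this }

/-- Both maps are onto. -/
lemma Good.surjective [T2Space Z] (hG : Good Z s z0) (b : Bool) : Function.Surjective (s b) := by
  intro z
  have hcl : IsClosed (range (s b)) := (isCompact_range (hG.cont b)).isClosed
  have ht := hG.recur [b] z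
  apply hcl.mem_of_tendsto ht
  filter_upwards with K
  obtain ⟨m, hm⟩ : ∃ m, K.factorial = m + 1 := ⟨K.factorial - 1, by
    have := Nat.factorial_pos K; omega⟩
  rw [hm, Function.iterate_succ_apply']
  exact ⟨_, rfl⟩

/-- The first subcontinuum. -/
lemma IsSusp.W_preconnected (hG : Good Z s z0) (hq : IsSusp s q) : IsPreconnected (Wset q) := by
  refine Wset_isPreconnected hq.cont (fun _ => Homeomorph.refl Z) s (fun z => q (z, false, 0))
    (hq.cont.comp (by fun_prop)) (fun z b => hq.glue0 z b false) (fun z b => hq.glue1 z b false) ?_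
  intro C hC h1 h2
  exact hG.square C hC h1 h2

/-- The reflected presentation. -/
def refl' (q : Z × Bool × unitInterval → X) (e : Z × Bool × unitInterval) : X :=
  q (e.1, e.2.1, unitInterval.symm e.2.2)

/-- The second subcontinuum. -/
lemma IsSusp.W'_preconnected [T2Space Z] (hG : Good Z s z0) (hinj : ∀ b, Function.Injective (s b))
    (hq : IsSusp s q) : IsPreconnected (Wset (refl' q)) := by
  have hh : ∀ b, IsHomeomorph (s b) := fun b =>
    isHomeomorph_iff_continuous_bijective.mpr ⟨hG.cont b, hinj b, hG.surjective b⟩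
  refine Wset_isPreconnected (q := refl' q)
    (hq.cont.comp (continuous_fst.prodMk ((continuous_fst.comp continuous_snd).prodMk
      (unitInterval.continuous_symm.comp (continuous_snd.comp continuous_snd)))))
    (fun b => (hh b).homeomorph) (fun _ z => z) (fun z => q (z, false, 0))
    (hq.cont.comp (by fun_prop)) (fun z b => ?_) (fun z b => ?_) ?_
  · show q (z, b, unitInterval.symm 0) = q (s b z, false, 0)
    rw [unitInterval.symm_zero]
    exact hq.glue1 z b false
  · show q (z, b, unitInterval.symm 1) = q (z, false, 0)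
    rw [unitInterval.symm_one]
    exact hq.glue0 z b false
  · intro C hC h1 h2
    exact hG.square C hC (fun b z v => (h1 b z v).symm) (fun b z v => (h2 b z v).symm)

lemma IsSusp.isOpen_band (hq : IsSusp s q) (b : Bool) (u v : unitInterval) :
    IsOpen (q '' {e | e.2.1 = b ∧ u < e.2.2 ∧ e.2.2 < v}) := by
  rw [← hq.isQuotientMap.isOpen_preimage]
  have : q ⁻¹' (q '' {e | e.2.1 = b ∧ u < e.2.2 ∧ e.2.2 < v}) =
      {e | e.2.1 = b ∧ u < e.2.2 ∧ e.2.2 < v} := by
    ext e
    constructor
    · rintro ⟨⟨z', b', t'⟩, ⟨h1, h2, h3⟩, h⟩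
      have := hq.inj z' b' t' e (lt_of_le_of_lt unitInterval.nonneg' h2)
        (lt_of_lt_of_le h3 unitInterval.le_one') h
      rw [this]; exact ⟨h1, h2, h3⟩
    · intro he; exact ⟨e, he, rfl⟩
  rw [this]
  have h1 : IsOpen {e : Z × Bool × unitInterval | e.2.1 = b} :=
    (isOpen_discrete {b}).preimage (by fun_prop)
  have h2 : IsOpen {e : Z × Bool × unitInterval | u < e.2.2} :=
    isOpen_lt (by fun_prop) (by fun_prop)
  have h3 : IsOpen {e : Z × Bool × unitInterval | e.2.2 < v} :=
    isOpen_lt (by fun_prop) (by fun_prop)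
  exact h1.inter (h2.inter h3)

noncomputable def third : unitInterval := ⟨1 / 3, by norm_num, by norm_num⟩

noncomputable def mid : unitInterval := ⟨7 / 24, by norm_num, by norm_num⟩

lemma IsSusp.W_interior (z0 : Z) (hq : IsSusp s q) : (interior (Wset q)).Nonempty := by
  let O : Set X := q '' {e | e.2.1 = true ∧ quarter < e.2.2 ∧ e.2.2 < third}
  have hO : IsOpen O := hq.isOpen_band true _ _
  have hmem : q (z0, true, mid) ∈ O := by
    refine ⟨(z0, true, mid), ⟨rfl, ?_, ?_⟩, rfl⟩
    · rw [← Subtype.coe_lt_coe]; norm_num [quarter, mid]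
    · rw [← Subtype.coe_lt_coe]; norm_num [third, mid]
  refine ⟨(q (z0, true, mid), q (z0, true, mid)), ?_⟩
  refine mem_interior.mpr ⟨O ×ˢ O, ?_, hO.prod hO, hmem, hmem⟩
  rintro ⟨x, y⟩ ⟨⟨⟨z, b, t⟩, ⟨h1, h2, h3⟩, rfl⟩, ⟨⟨z', b', t'⟩, ⟨h1', h2', h3'⟩, rfl⟩⟩
  refine mem_iUnion.mpr ⟨true, Or.inl ⟨⟨(z, b, t), Or.inl h1, rfl⟩, ⟨(z', b', t'), ⟨h1', ?_, ?_⟩, rfl⟩⟩⟩
  · have : (quarter : ℝ) < t' := by exact_mod_cast h2'
    exact (show (1 : ℝ) / 4 < t' from this).le
  · have : (t' : ℝ) < third := by exact_mod_cast h3'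
    exact (show (t' : ℝ) < 1 / 3 from this).le

lemma IsSusp.W'_interior (z0 : Z) (hq : IsSusp s q) : (interior (Wset (refl' q))).Nonempty := by
  let O : Set X := q '' {e | e.2.1 = true ∧ unitInterval.symm third < e.2.2 ∧
    e.2.2 < unitInterval.symm quarter}
  have hO : IsOpen O := hq.isOpen_band true _ _
  have hmem : q (z0, true, unitInterval.symm mid) ∈ O := by
    refine ⟨(z0, true, unitInterval.symm mid), ⟨rfl, ?_, ?_⟩, rfl⟩
    · rw [← Subtype.coe_lt_coe]; norm_num [third, mid]
    · rw [← Subtype.coe_lt_coe]; norm_num [quarter, mid]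
  refine ⟨(q (z0, true, unitInterval.symm mid), q (z0, true, unitInterval.symm mid)), ?_⟩
  refine mem_interior.mpr ⟨O ×ˢ O, ?_, hO.prod hO, hmem, hmem⟩
  rintro ⟨x, y⟩ ⟨⟨⟨z, b, t⟩, ⟨h1, h2, h3⟩, rfl⟩, ⟨⟨z', b', t'⟩, ⟨h1', h2', h3'⟩, rfl⟩⟩
  refine mem_iUnion.mpr ⟨true, Or.inl ⟨⟨(z, b, unitInterval.symm t), Or.inl h1, ?_⟩,
    ⟨(z', b', unitInterval.symm t'), ⟨h1', ?_, ?_⟩, ?_⟩⟩⟩
  · show q (z, b, unitInterval.symm (unitInterval.symm t)) = q (z, b, t)
    rw [unitInterval.symm_symm]
  · have h : (t' : ℝ) < (unitInterval.symm quarter : ℝ) := by exact_mod_cast h3'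
    rw [unitInterval.coe_symm_eq] at h
    have h4 : (quarter : ℝ) = 1 / 4 := rfl
    rw [h4] at h
    show (1 : ℝ) / 4 ≤ (unitInterval.symm t' : ℝ)
    rw [unitInterval.coe_symm_eq]; linarith
  · have h : (unitInterval.symm third : ℝ) < (t' : ℝ) := by exact_mod_cast h2'
    rw [unitInterval.coe_symm_eq] at h
    have h4 : (third : ℝ) = 1 / 3 := rfl
    rw [h4] at h
    show (unitInterval.symm t' : ℝ) ≤ 1 / 3
    rw [unitInterval.coe_symm_eq]; linarith
  · show q (z', b', unitInterval.symm (unitInterval.symm t')) = q (z', b', t')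
    rw [unitInterval.symm_symm]

/-- A point of a band of the first kind is not in the second kind of set, and conversely. -/
lemma IsSusp.disj_aux (hq : IsSusp s q) (z z' : Z) (b b' : Bool) (t t' : unitInterval)
    (h1 : 1 / 4 ≤ (t : ℝ)) (h2 : (t : ℝ) ≤ 1 / 3) (h : q (z, b, t) = q (z', b', t')) :
    (z', b', t') = (z, b, t) :=
  hq.inj z b t _ (by
    have : (0 : ℝ) < t := by linarith
    exact_mod_cast this) (by
    have : (t : ℝ) < 1 := by linarith
    exact_mod_cast this) h

lemma IsSusp.disj_aux' (hq : IsSusp s q) (z z' : Z) (b b' : Bool) (t t' : unitInterval)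
    (h1 : 1 / 4 ≤ (t : ℝ)) (h2 : (t : ℝ) ≤ 1 / 3)
    (h : q (z, b, unitInterval.symm t) = q (z', b', t')) :
    (z', b', t') = (z, b, unitInterval.symm t) :=
  hq.inj z b (unitInterval.symm t) _ (by
    have : (0 : ℝ) < (unitInterval.symm t : ℝ) := by rw [unitInterval.coe_symm_eq]; linarith
    exact_mod_cast this) (by
    have : (unitInterval.symm t : ℝ) < 1 := by rw [unitInterval.coe_symm_eq]; linarith
    exact_mod_cast this) h

/-- `N_a` and `L*_b` are disjoint for `a ≠ b`. -/
lemma IsSusp.NL (hq : IsSusp s q) (a b : Bool) (hab : a ≠ b) (x : X) (h : x ∈ Nset q a)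
    (h' : x ∈ Lset (refl' q) b) : False := by
  obtain ⟨⟨z, c, t⟩, ⟨hc, h1, h2⟩, rfl⟩ := h
  obtain ⟨⟨z', c', t'⟩, hL, h⟩ := h'
  simp only at hc h1 h2
  have e := hq.disj_aux z z' c c' t (unitInterval.symm t') h1 h2 h.symm
  simp only [Prod.mk.injEq] at e
  obtain ⟨-, e2, e3⟩ := e
  rcases hL with hL | hL
  · simp only at hL
    exact hab (by rw [← hc, ← e2, hL])
  · simp only at hL
    have : ((unitInterval.symm t' : unitInterval) : ℝ) = t := by rw [e3]
    rw [unitInterval.coe_symm_eq] at this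
    linarith

/-- `L_a` and `N*_b` are disjoint for `a ≠ b`. -/
lemma IsSusp.LN (hq : IsSusp s q) (a b : Bool) (hab : a ≠ b) (x : X) (h : x ∈ Lset q a)
    (h' : x ∈ Nset (refl' q) b) : False := by
  obtain ⟨⟨z, c, t⟩, hL, rfl⟩ := h
  obtain ⟨⟨z', c', t'⟩, ⟨hc, h1, h2⟩, h⟩ := h'
  simp only at hc h1 h2
  have e := hq.disj_aux' z' z c' c t' t h1 h2 h
  simp only [Prod.mk.injEq] at e
  obtain ⟨-, e2, e3⟩ := e
  rcases hL with hL | hL
  · simp only at hL
    exact hab (by rw [← hc, ← e2, hL])
  · simp only at hL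
    rw [e3, unitInterval.coe_symm_eq] at hL
    linarith

/-- `N_a` and `N*_b` are disjoint. -/
lemma IsSusp.NN (hq : IsSusp s q) (a b : Bool) (x : X) (h : x ∈ Nset q a)
    (h' : x ∈ Nset (refl' q) b) : False := by
  obtain ⟨⟨z, c, t⟩, ⟨hc, h1, h2⟩, rfl⟩ := h
  obtain ⟨⟨z', c', t'⟩, ⟨hc', h1', h2'⟩, h⟩ := h'
  simp only at hc h1 h2 hc' h1' h2'
  have e := hq.disj_aux' z' z c' c t' t h1' h2' h
  simp only [Prod.mk.injEq] at e
  obtain ⟨-, e2, e3⟩ := e
  rw [e3, unitInterval.coe_symm_eq] at h2
  linarith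

lemma IsSusp.disjoint (hq : IsSusp s q) : Wset (refl' q) ∩ Wset q = ∅ := by
  rw [eq_empty_iff_forall_notMem]
  rintro ⟨x, y⟩ ⟨h', h⟩
  obtain ⟨a, h⟩ := mem_iUnion.mp h
  obtain ⟨b, h'⟩ := mem_iUnion.mp h'
  rcases h with ⟨hx, hy⟩ | ⟨hx, hy⟩
  · rcases h' with ⟨hx', hy'⟩ | ⟨hx', hy'⟩
    · exact hq.NN a b y hy hy'
    · by_cases hab : a = b
      · exact hq.LN a (!b) (by rw [hab]; simp) x hx hx'
      · exact hq.NL a b hab y hy hy'
  · rcases h' with ⟨hx', hy'⟩ | ⟨hx', hy'⟩
    · by_cases hab : a = b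
      · exact hq.NL (!a) b (by rw [hab]; simp) x hx hx'
      · exact hq.LN a b hab y hy hy'
    · exact hq.NN (!a) (!b) x hx hx'

end

end Pool.Agent.Helper91
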