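import Mathlib

/-!
A countable metrizable topological semilattice that is `c`-complete but not `s`-complete.
-/

open Set Topology TopologicalSpace

namespace Pool.Agent.Helper91.SemiLat

/-- The underlying set: a zero `e`, the points `(a,b,c)` with `a ≤ b` finite, and the points
`(a,∞,c)` with `a ≤ c`. -/
inductive P : Type
  | e : P
  | fin (a b c : ℕ) (h : a ≤ b) : P
  | inf (a c : ℕ) (h : a ≤ c) : P

namespace P

def mul : P → P → P
  | e, _ => e
  | _, e => e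
  | fin a b c h, fin a' b' c' h' => fin (max a a') (max b b') (max c c') (by omega)
  | fin a _ c _, inf a' c' h' => inf (max a a') (max (max c c') a) (by omega)
  | inf a c h, fin a' _ c' _ => inf (max a a') (max (max c c') a') (by omega)
  | inf a c h, inf a' c' h' => inf (max a a') (max c c') (by omega)

@[simp] lemma mul_e (x : P) : mul x e = e := by cases x <;> rfl
@[simp] lemma e_mul (x : P) : mul e x = e := by cases x <;> rfl
@[simp] lemma mul_ff (a b c h a' b' c' h') : mul (fin a b c h) (fin a' b' c' h') =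
  fin (max a a') (max b b') (max c c') (by omega) := rfl
@[simp] lemma mul_fi (a b c h a' c' h') : mul (fin a b c h) (inf a' c' h') =
  inf (max a a') (max (max c c') a) (by omega) := rfl
@[simp] lemma mul_if (a c h a' b' c' h') : mul (inf a c h) (fin a' b' c' h') =
  inf (max a a') (max (max c c') a') (by omega) := rfl
@[simp] lemma mul_ii (a c h a' c' h') : mul (inf a c h) (inf a' c' h') =
  inf (max a a') (max c c') (by omega) := rfl

lemma mul_assoc (x y z : P) : mul (mul x y) z = mul x (mul y z) := by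
  rcases x with _ | ⟨a, b, c, h⟩ | ⟨a, c, h⟩ <;> rcases y with _ | ⟨a', b', c', h'⟩ | ⟨a', c', h'⟩ <;>
    rcases z with _ | ⟨a'', b'', c'', h''⟩ | ⟨a'', c'', h''⟩ <;> simp <;> omega

lemma mul_comm (x y : P) : mul x y = mul y x := by
  rcases x with _ | ⟨a, b, c, h⟩ | ⟨a, c, h⟩ <;> rcases y with _ | ⟨a', b', c', h'⟩ | ⟨a', c', h'⟩ <;>
    simp <;> omega

lemma mul_idem (x : P) : mul x x = x := by
  rcases x with _ | ⟨a, b, c, h⟩ | ⟨a, c, h⟩ <;> simp

/-- The `a`-coordinate (and `0` for `e`). -/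
def ca : P → ℕ
  | e => 0
  | fin a _ _ _ => a
  | inf a _ _ => a

/-- The `c`-coordinate (and `0` for `e`). -/
def cc : P → ℕ
  | e => 0
  | fin _ _ c _ => c
  | inf _ c _ => c

@[simp] lemma ca_fin (a b c h) : ca (fin a b c h) = a := rfl
@[simp] lemma ca_inf (a c h) : ca (inf a c h) = a := rfl
@[simp] lemma cc_fin (a b c h) : cc (fin a b c h) = c := rfl
@[simp] lemma cc_inf (a c h) : cc (inf a c h) = c := rfl

/-- The basic neighbourhoods of `e`. -/
def V (N : ℕ) : Set P := {x | x = e ∨ (N ≤ cc x ∧ ca x + 1 ≤ cc x)}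

instance : TopologicalSpace P where
  IsOpen U := (∀ a c h, inf a c h ∈ U → ∃ B, ∀ b hb c', B ≤ b → max a c' = c → fin a b c' hb ∈ U) ∧
    (e ∈ U → ∃ N, V N ⊆ U)
  isOpen_univ := ⟨fun _ _ _ _ => ⟨0, fun _ _ _ _ _ => mem_univ _⟩, fun _ => ⟨0, subset_univ _⟩⟩
  isOpen_inter U U' hU hU' := by
    refine ⟨fun a c h hm => ?_, fun he => ?_⟩
    · obtain ⟨B, hB⟩ := hU.1 a c h hm.1
      obtain ⟨B', hB'⟩ := hU'.1 a c h hm.2
      exact ⟨max B B', fun b hb c' hbb hc => ⟨hB b hb c' (by omega) hc, hB' b hb c' (by omega) hc⟩⟩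
    · obtain ⟨N, hN⟩ := hU.2 he.1
      obtain ⟨N', hN'⟩ := hU'.2 he.2
      refine ⟨max N N', fun x hx => ⟨hN ?_, hN' ?_⟩⟩
      · rcases hx with rfl | ⟨h1, h2⟩
        · exact Or.inl rfl
        · exact Or.inr ⟨by omega, h2⟩
      · rcases hx with rfl | ⟨h1, h2⟩
        · exact Or.inl rfl
        · exact Or.inr ⟨by omega, h2⟩
  isOpen_sUnion S hS := by
    refine ⟨fun a c h hm => ?_, fun he => ?_⟩
    · obtain ⟨U, hU, hm⟩ := hm
      obtain ⟨B, hB⟩ := (hS U hU).1 a c h hm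
      exact ⟨B, fun b hb c' hbb hc => ⟨U, hU, hB b hb c' hbb hc⟩⟩
    · obtain ⟨U, hU, hm⟩ := he
      obtain ⟨N, hN⟩ := (hS U hU).2 hm
      exact ⟨N, fun x hx => ⟨U, hU, hN hx⟩⟩

lemma isOpen_def (U : Set P) : IsOpen U ↔
    (∀ a c h, inf a c h ∈ U → ∃ B, ∀ b hb c', B ≤ b → max a c' = c → fin a b c' hb ∈ U) ∧
    (e ∈ U → ∃ N, V N ⊆ U) := Iff.rfl

lemma isOpen_V (N : ℕ) : IsOpen (V N) := by
  refine ⟨fun a c h hm => ⟨0, fun b hb c' _ hc => ?_⟩, fun _ => ⟨N, Subset.rfl⟩⟩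
  rcases hm with hm | ⟨h1, h2⟩
  · cases hm
  · simp only [cc_inf, ca_inf] at h1 h2
    exact Or.inr ⟨by simp; omega, by simp; omega⟩

lemma isClosed_V (N : ℕ) : IsClosed (V N) := by
  rw [← isOpen_compl_iff]
  refine ⟨fun a c h hm => ⟨0, fun b hb c' _ hc => ?_⟩, fun h => absurd (Or.inl rfl) h⟩
  rintro (hh | ⟨h1, h2⟩)
  · cases hh
  · simp only [cc_fin, ca_fin] at h1 h2
    exact hm (Or.inr ⟨by simp; omega, by simp; omega⟩)

/-- The basic neighbourhoods of `(a,∞,c)`. -/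
def W (a c B : ℕ) : Set P := {x | (∃ h, x = inf a c h) ∨ ∃ b c' hb, x = fin a b c' hb ∧ B ≤ b ∧ max a c' = c}

lemma isOpen_W (a c B : ℕ) : IsOpen (W a c B) := by
  refine ⟨fun a1 c1 h hm => ⟨B, fun b hb c' hbb hc => ?_⟩, fun h => ?_⟩
  · rcases hm with ⟨_, hm⟩ | ⟨b, c', hb, hm, _, _⟩
    · simp only [inf.injEq] at hm
      obtain ⟨rfl, rfl⟩ := hm
      exact Or.inr ⟨b, c', hb, rfl, hbb, hc⟩
    · cases hm
  · rcases h with ⟨_, hm⟩ | ⟨b, c', hb, hm, _, _⟩ <;> cases hm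

lemma isClosed_W (a c B : ℕ) : IsClosed (W a c B) := by
  rw [← isOpen_compl_iff]
  refine ⟨fun a1 c1 h hm => ⟨0, fun b hb c' hbb hc => ?_⟩, fun h => ⟨c + 1, ?_⟩⟩
  · rintro (⟨_, hh⟩ | ⟨b', c'', hb', hh, h1, h2⟩)
    · cases hh
    · simp only [fin.injEq] at hh
      obtain ⟨rfl, rfl, rfl⟩ := hh
      exact hm (Or.inl ⟨by omega, by simp; omega⟩)
  · rintro x (rfl | ⟨h1, h2⟩) (⟨_, hh⟩ | ⟨b', c'', hb', hh, h3, h4⟩)
    · cases hh
    · cases hh
    · subst hh; simp at h1 h2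
    · subst hh; simp at h1 h2; omega

lemma isOpen_fin (a b c h) : IsOpen ({fin a b c h} : Set P) := by
  refine ⟨fun a1 c1 h hm => ?_, fun h => ?_⟩
  · cases hm
  · cases h

lemma isClosed_fin (a b c h) : IsClosed ({fin a b c h} : Set P) := by
  rw [← isOpen_compl_iff]
  refine ⟨fun a1 c1 h hm => ⟨b + 1, fun b' hb c' hbb hc => ?_⟩, fun h => ⟨c + 1, ?_⟩⟩
  · intro hh
    simp only [mem_singleton_iff, fin.injEq] at hh
    omega
  · rintro x (rfl | ⟨h1, h2⟩) hh
    · cases hh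
    · simp only [mem_singleton_iff] at hh
      subst hh; simp at h1 h2

lemma nhds_e : (𝓝 e).HasBasis (fun _ : ℕ => True) V := by
  refine ⟨fun t => ?_⟩
  rw [mem_nhds_iff]
  constructor
  · rintro ⟨U, hU, hUo, he⟩
    obtain ⟨N, hN⟩ := hUo.2 he
    exact ⟨N, trivial, hN.trans hU⟩
  · rintro ⟨N, _, hN⟩
    exact ⟨V N, hN, isOpen_V N, Or.inl rfl⟩

lemma nhds_inf (a c h) : (𝓝 (inf a c h)).HasBasis (fun _ : ℕ => True) (W a c) := by
  refine ⟨fun t => ?_⟩
  rw [mem_nhds_iff]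
  constructor
  · rintro ⟨U, hU, hUo, he⟩
    obtain ⟨B, hB⟩ := hUo.1 a c h he
    refine ⟨B, trivial, ?_⟩
    rintro x (⟨_, rfl⟩ | ⟨b, c', hb, rfl, h1, h2⟩)
    · exact hU he
    · exact hU (hB b hb c' h1 h2)
  · rintro ⟨B, _, hB⟩
    exact ⟨W a c B, hB, isOpen_W a c B, Or.inl ⟨h, rfl⟩⟩

lemma nhds_fin (a b c h) : (𝓝 (fin a b c h)).HasBasis (fun _ : ℕ => True)
    (fun _ => {fin a b c h}) := by
  refine ⟨fun t => ?_⟩
  rw [mem_nhds_iff]
  constructor
  · rintro ⟨U, hU, _, he⟩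
    exact ⟨0, trivial, by simpa using hU he⟩
  · rintro ⟨_, _, hB⟩
    exact ⟨_, hB, isOpen_fin a b c h, rfl⟩

/-- A countable neighbourhood base at every point. -/
def nb : P → ℕ → Set P
  | e, N => V N
  | fin a b c h, _ => {fin a b c h}
  | inf a c _, B => W a c B

lemma nhds_nb (x : P) : (𝓝 x).HasBasis (fun _ : ℕ => True) (nb x) := by
  rcases x with _ | ⟨a, b, c, h⟩ | ⟨a, c, h⟩
  · exact nhds_e
  · exact nhds_fin a b c h
  · exact nhds_inf a c h

lemma isClosed_nb (x : P) (i : ℕ) : IsClosed (nb x i) := by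
  rcases x with _ | ⟨a, b, c, h⟩ | ⟨a, c, h⟩
  · exact isClosed_V i
  · exact isClosed_fin a b c h
  · exact isClosed_W a c i

lemma isOpen_nb (x : P) (i : ℕ) : IsOpen (nb x i) := by
  rcases x with _ | ⟨a, b, c, h⟩ | ⟨a, c, h⟩
  · exact isOpen_V i
  · exact isOpen_fin a b c h
  · exact isOpen_W a c i

instance : Countable P := by
  have : Function.Injective (fun x : P => match x with
    | e => (0, 0, 0, 0)
    | fin a b c _ => ((1 : ℕ), a, b, c)
    | inf a c _ => (2, a, c, 0)) := by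
    intro x y
    rcases x with _ | ⟨a, b, c, h⟩ | ⟨a, c, h⟩ <;> rcases y with _ | ⟨a', b', c', h'⟩ | ⟨a', c', h'⟩ <;>
      simp
  exact this.countable

instance : T2Space P := by
  refine ⟨fun x y hxy => ?_⟩
  have key : ∀ x y : P, x ≠ y → (∃ a b c h, x = fin a b c h) ∨ (∃ a c h, x = inf a c h) →
      (∀ a b c h, x ≠ fin a b c h → y ≠ fin a b c h) →
      ∃ u v, IsOpen u ∧ IsOpen v ∧ x ∈ u ∧ y ∈ v ∧ Disjoint u v := by
    rintro x y hxy (⟨a, b, c, h, rfl⟩ | ⟨a, c, h, rfl⟩) hy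
    · exact ⟨{fin a b c h}, {fin a b c h}ᶜ, isOpen_fin a b c h, (isClosed_fin a b c h).isOpen_compl,
        rfl, fun h => hxy h.symm, disjoint_compl_right⟩
    · refine ⟨W a c 0, (W a c 0)ᶜ, isOpen_W a c 0, (isClosed_W a c 0).isOpen_compl,
        Or.inl ⟨h, rfl⟩, ?_, disjoint_compl_right⟩
      rintro (⟨_, hh⟩ | ⟨b', c'', hb', hh, h3, h4⟩)
      · exact hxy hh.symm
      · exact hy _ _ _ _ (by simp) hh
  have sw : ∀ x y : P, (∃ u v, IsOpen u ∧ IsOpen v ∧ x ∈ u ∧ y ∈ v ∧ Disjoint u v) →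
      ∃ u v, IsOpen u ∧ IsOpen v ∧ y ∈ u ∧ x ∈ v ∧ Disjoint u v := by
    rintro x y ⟨u, v, h1, h2, h3, h4, h5⟩
    exact ⟨v, u, h2, h1, h4, h3, h5.symm⟩
  rcases x with _ | ⟨a, b, c, h⟩ | ⟨a, c, h⟩ <;> rcases y with _ | ⟨a', b', c', h'⟩ | ⟨a', c', h'⟩
  · exact absurd rfl hxy
  · exact sw _ _ ⟨_, _, isOpen_fin a' b' c' h', (isClosed_fin a' b' c' h').isOpen_compl, rfl,
      by simp, disjoint_compl_right⟩
  · exact sw _ _ (key _ _ hxy.symm (Or.inr ⟨_, _, _, rfl⟩) (by simp))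
  · exact ⟨_, _, isOpen_fin a b c h, (isClosed_fin a b c h).isOpen_compl, rfl,
      by simp, disjoint_compl_right⟩
  · exact ⟨_, _, isOpen_fin a b c h, (isClosed_fin a b c h).isOpen_compl, rfl,
      fun hh => hxy (by simpa using hh.symm), disjoint_compl_right⟩
  · exact ⟨_, _, isOpen_fin a b c h, (isClosed_fin a b c h).isOpen_compl, rfl,
      by simp, disjoint_compl_right⟩
  · exact key _ _ hxy (Or.inr ⟨_, _, _, rfl⟩) (by simp)
  · exact sw _ _ ⟨_, _, isOpen_fin a' b' c' h', (isClosed_fin a' b' c' h').isOpen_compl, rfl,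
      by simp, disjoint_compl_right⟩
  · exact key _ _ hxy (Or.inr ⟨_, _, _, rfl⟩) (by simp)

instance : RegularSpace P :=
  RegularSpace.of_hasBasis (p := fun _ _ => True) (s := nb) nhds_nb (fun a i _ => isClosed_nb a i)

instance : SecondCountableTopology P := by
  have hb : IsTopologicalBasis {U : Set P | ∃ x i, U = nb x i} := by
    refine isTopologicalBasis_of_isOpen_of_nhds ?_ ?_
    · rintro U ⟨x, i, rfl⟩
      exact isOpen_nb x i
    · intro x U hx hU
      obtain ⟨i, _, hi⟩ := (nhds_nb x).mem_iff.mp (hU.mem_nhds hx)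
      refine ⟨nb x i, ⟨x, i, rfl⟩, ?_, hi⟩
      exact mem_of_mem_nhds ((nhds_nb x).mem_of_mem trivial)
  refine hb.secondCountableTopology ?_
  have : {U : Set P | ∃ x i, U = nb x i} = range (fun q : P × ℕ => nb q.1 q.2) := by
    ext U
    constructor
    · rintro ⟨x, i, rfl⟩
      exact ⟨(x, i), rfl⟩
    · rintro ⟨q, rfl⟩
      exact ⟨q.1, q.2, rfl⟩
  rw [this]
  exact countable_range _

instance : MetrizableSpace P := metrizableSpace_of_t3_secondCountable P

lemma continuous_mul : Continuous (fun q : P × P => mul q.1 q.2) := by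
  refine continuous_def.mpr fun U hU => ?_
  rw [isOpen_prod_iff]
  -- a half of the cases
  have keye : ∀ y : P, e ∈ U → ∃ u v : Set P, IsOpen u ∧ IsOpen v ∧ e ∈ u ∧ y ∈ v ∧
      ∀ x ∈ u, ∀ z ∈ v, mul x z ∈ U := by
    intro y he
    obtain ⟨N, hN⟩ := hU.2 he
    rcases y with _ | ⟨a, b, c, h⟩ | ⟨a, c, h⟩
    · refine ⟨V N, V N, isOpen_V N, isOpen_V N, Or.inl rfl, Or.inl rfl, ?_⟩
      rintro x (rfl | ⟨h1, h2⟩) z (rfl | ⟨h3, h4⟩)
      · simpa using he
      · simpa using he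
      · simpa using he
      · apply hN
        rcases x with _ | ⟨a, b, c, h⟩ | ⟨a, c, h⟩ <;> rcases z with _ | ⟨a', b', c', h'⟩ | ⟨a', c', h'⟩ <;>
          simp_all [V] <;> omega
    · refine ⟨V (max N (a + 1)), {fin a b c h}, isOpen_V _, isOpen_fin _ _ _ _, Or.inl rfl, rfl, ?_⟩
      rintro x (rfl | ⟨h1, h2⟩) z rfl
      · simpa using he
      · apply hN
        rcases x with _ | ⟨a', b', c', h'⟩ | ⟨a', c', h'⟩ <;> simp_all [V]
    · refine ⟨V (max N (a + 1)), W a c 0, isOpen_V _, isOpen_W _ _ _, Or.inl rfl, Or.inl ⟨h, rfl⟩, ?_⟩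
      rintro x (rfl | ⟨h1, h2⟩) z (⟨_, rfl⟩ | ⟨b', c', hb', rfl, h3, h4⟩)
      · simpa using he
      · simpa using he
      · apply hN
        rcases x with _ | ⟨a', b', c', h'⟩ | ⟨a', c', h'⟩ <;> simp_all [V]
      · apply hN
        rcases x with _ | ⟨a', b', c', h'⟩ | ⟨a', c', h'⟩ <;> simp_all [V]
  have keyi : ∀ a c h (y : P), y ≠ e → mul (inf a c h) y ∈ U → ∃ u v : Set P, IsOpen u ∧ IsOpen v ∧
      inf a c h ∈ u ∧ y ∈ v ∧ ∀ x ∈ u, ∀ z ∈ v, mul x z ∈ U := by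
    intro a c h y hy hm
    rcases y with _ | ⟨a', b', c', h'⟩ | ⟨a', c', h'⟩
    · exact absurd rfl hy
    · rw [mul_if] at hm
      obtain ⟨B, hB⟩ := hU.1 _ _ _ hm
      refine ⟨W a c B, {fin a' b' c' h'}, isOpen_W _ _ _, isOpen_fin _ _ _ _, Or.inl ⟨h, rfl⟩, rfl, ?_⟩
      rintro x (⟨_, rfl⟩ | ⟨b1, c1, hb1, rfl, h3, h4⟩) z rfl
      · exact hm
      · rw [mul_ff]
        exact hB _ _ _ (by omega) (by omega)
    · rw [mul_ii] at hm
      obtain ⟨B, hB⟩ := hU.1 _ _ _ hm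
      refine ⟨W a c B, W a' c' B, isOpen_W _ _ _, isOpen_W _ _ _, Or.inl ⟨h, rfl⟩,
        Or.inl ⟨h', rfl⟩, ?_⟩
      rintro x (⟨_, rfl⟩ | ⟨b1, c1, hb1, rfl, h3, h4⟩) z (⟨_, rfl⟩ | ⟨b2, c2, hb2, rfl, h5, h6⟩)
      · exact hm
      · rw [mul_if]
        have : inf (max a a') (max (max c c2) a') (by omega) = inf (max a a') (max c c') (by omega) := by
          simp; omega
        rw [this]; exact hm
      · rw [mul_fi]
        have : inf (max a a') (max (max c1 c') a) (by omega) = inf (max a a') (max c c') (by omega) := by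
          simp; omega
        rw [this]; exact hm
      · rw [mul_ff]
        exact hB _ _ _ (by omega) (by omega)
  have sw : ∀ x y : P, (∃ u v : Set P, IsOpen u ∧ IsOpen v ∧ y ∈ u ∧ x ∈ v ∧
      ∀ x ∈ u, ∀ z ∈ v, mul x z ∈ U) → ∃ u v : Set P, IsOpen u ∧ IsOpen v ∧ x ∈ u ∧ y ∈ v ∧
      ∀ x ∈ u, ∀ z ∈ v, mul x z ∈ U := by
    rintro x y ⟨u, v, h1, h2, h3, h4, h5⟩
    exact ⟨v, u, h2, h1, h4, h3, fun a ha b hb => by rw [mul_comm]; exact h5 b hb a ha⟩
  have main : ∀ x y : P, mul x y ∈ U → ∃ u v : Set P, IsOpen u ∧ IsOpen v ∧ x ∈ u ∧ y ∈ v ∧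
      ∀ x ∈ u, ∀ z ∈ v, mul x z ∈ U := by
    intro x y hm
    rcases x with _ | ⟨a, b, c, h⟩ | ⟨a, c, h⟩
    · exact keye y (by simpa using hm)
    · rcases y with _ | ⟨a', b', c', h'⟩ | ⟨a', c', h'⟩
      · exact sw _ _ (keye _ (by simpa using hm))
      · exact ⟨{fin a b c h}, {fin a' b' c' h'}, isOpen_fin _ _ _ _, isOpen_fin _ _ _ _, rfl, rfl,
          by rintro _ rfl _ rfl; exact hm⟩
      · exact sw _ _ (keyi _ _ _ _ (by simp) (by rw [mul_comm]; exact hm))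
    · by_cases hy : y = e
      · subst hy
        exact sw _ _ (keye _ (by simpa using hm))
      · exact keyi _ _ _ _ hy hm
  intro x y hxy
  obtain ⟨u, v, h1, h2, h3, h4, h5⟩ := main x y hxy
  exact ⟨u, v, h1, h2, h3, h4, fun q hq => h5 q.1 hq.1 q.2 hq.2⟩

/-! ### The order -/

lemma e_le (x : P) : mul e x = e := e_mul x

lemma le_e {x : P} (h : mul x e = x) : x = e := by simpa using h.symm

lemma ff_le {a b c h a' b' c' h'} : mul (fin a b c h) (fin a' b' c' h') = fin a b c h ↔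
    a' ≤ a ∧ b' ≤ b ∧ c' ≤ c := by simp

lemma not_fi_le {a b c h a' c' h'} : mul (fin a b c h) (inf a' c' h') ≠ fin a b c h := by simp

lemma if_le {a c h a' b' c' h'} : mul (inf a c h) (fin a' b' c' h') = inf a c h ↔
    a' ≤ a ∧ c' ≤ c := by simp; omega

lemma ii_le {a c h a' c' h'} : mul (inf a c h) (inf a' c' h') = inf a c h ↔
    a' ≤ a ∧ c' ≤ c := by simp

lemma ca_le {x y : P} (h : mul x y = x) (hx : x ≠ e) : ca y ≤ ca x := by
  rcases x with _ | ⟨a, b, c, h⟩ | ⟨a, c, h⟩ <;> rcases y with _ | ⟨a', b', c', h'⟩ | ⟨a', c', h'⟩ <;>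
    simp_all

lemma cc_le {x y : P} (h : mul x y = x) (hx : x ≠ e) : cc y ≤ cc x := by
  rcases x with _ | ⟨a, b, c, h⟩ | ⟨a, c, h⟩ <;> rcases y with _ | ⟨a', b', c', h'⟩ | ⟨a', c', h'⟩ <;>
    simp_all

lemma le_antisymm {x y : P} (h : mul x y = x) (h' : mul y x = y) : x = y := by
  rw [← h, mul_comm, h']

lemma le_trans {x y z : P} (h : mul x y = x) (h' : mul y z = y) : mul x z = x := by
  rw [← h, mul_assoc, h']

/-- A rank function that strictly increases when going down. -/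
def rk : P → ℕ ×ₗ ℕ
  | e => toLex (2, 0)
  | fin a b c _ => toLex (0, a + b + c)
  | inf a c _ => toLex (1, a + c)

lemma rk_lt {x y : P} (h : mul x y = x) (hne : x ≠ y) : rk y < rk x := by
  rcases x with _ | ⟨a, b, c, h⟩ | ⟨a, c, h⟩ <;> rcases y with _ | ⟨a', b', c', h'⟩ | ⟨a', c', h'⟩ <;>
    simp_all [rk, Prod.Lex.toLex_lt_toLex] <;> omega

/-- Every nonempty chain has a greatest element. -/
lemma exists_max (C : Set P) (hne : C.Nonempty) (hC : ∀ x ∈ C, ∀ y ∈ C, mul x y = x ∨ mul y x = y) :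
    ∃ m ∈ C, ∀ x ∈ C, mul x m = x := by
  have hw : WellFounded (fun x y : P => rk x < rk y) := InvImage.wf rk wellFounded_lt
  obtain ⟨m, hm, hmin⟩ := hw.has_min C hne
  refine ⟨m, hm, fun x hx => ?_⟩
  rcases hC x hx m hm with h | h
  · exact h
  · by_cases hxm : x = m
    · subst hxm; exact mul_idem x
    · exact absurd (rk_lt h (Ne.symm hxm)) (hmin x hx)

/-- A closed upper set containing points with unbounded `c`-coordinate contains `e`. -/
lemma e_mem_of_cc {F : Set P} (hF : IsClosed F) (hup : ∀ x ∈ F, ∀ y, mul x y = x → y ∈ F)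
    (h : ∀ n, ∃ x ∈ F, x ≠ e ∧ n ≤ cc x) : e ∈ F := by
  by_contra he
  obtain ⟨N, hN⟩ := hF.isOpen_compl.2 he
  obtain ⟨x, hx, hxe, hn⟩ := h (N + 1)
  have : fin 0 0 (cc x) le_rfl ∈ F := by
    refine hup x hx _ ?_
    rcases x with _ | ⟨a, b, c, h⟩ | ⟨a, c, h⟩ <;> simp_all
  exact hN (Or.inr ⟨by simp; omega, by simp; omega⟩) this

/-- A closed upper set containing points with unbounded `a`-coordinate contains `e`. -/
lemma e_mem_of_ca {F : Set P} (hF : IsClosed F) (hup : ∀ x ∈ F, ∀ y, mul x y = x → y ∈ F)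
    (h : ∀ n, ∃ x ∈ F, x ≠ e ∧ n ≤ ca x) : e ∈ F := by
  have h1 : ∀ k b (hb : k ≤ b), fin k b 0 hb ∈ F := by
    intro k b hb
    obtain ⟨x, hx, hxe, hn⟩ := h b
    refine hup x hx _ ?_
    rcases x with _ | ⟨a, b, c, h⟩ | ⟨a, c, h⟩ <;> simp_all <;> omega
  have h2 : ∀ k, inf k k le_rfl ∈ F := by
    intro k
    by_contra hk
    obtain ⟨B, hB⟩ := hF.isOpen_compl.1 _ _ _ hk
    exact hB (max B k) (by omega) 0 (by omega) (by omega) (h1 _ _ _)
  refine e_mem_of_cc hF hup fun n => ⟨fin 0 0 n le_rfl, ?_, by simp, by simp⟩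
  exact hup _ (h2 n) _ (by simp)

/-- Every nonempty chain in a closed upper set `F` has an infimum, and it belongs to `F`. -/
lemma exists_inf {F : Set P} (hF : IsClosed F) (hup : ∀ x ∈ F, ∀ y, mul x y = x → y ∈ F)
    (C : Set P) (hCF : C ⊆ F) (hne : C.Nonempty)
    (hC : ∀ x ∈ C, ∀ y ∈ C, mul x y = x ∨ mul y x = y) :
    ∃ i ∈ F, (∀ x ∈ C, mul i x = i) ∧ ∀ z, (∀ x ∈ C, mul z x = z) → mul z i = z := by
  by_cases he : e ∈ C
  · exact ⟨e, hCF he, fun x _ => e_mul x, fun z hz => hz e he⟩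
  have hne' : ∀ x ∈ C, x ≠ e := fun x hx hh => he (hh ▸ hx)
  by_cases hca : ∀ n, ∃ x ∈ C, n ≤ ca x
  · refine ⟨e, e_mem_of_ca hF hup fun n => ?_, fun x _ => e_mul x, fun z hz => ?_⟩
    · obtain ⟨x, hx, hn⟩ := hca n
      exact ⟨x, hCF hx, hne' x hx, hn⟩
    · by_contra hze
      have hz' : z ≠ e := fun hh => hze (by rw [hh]; simp)
      obtain ⟨x, hx, hn⟩ := hca (ca z + 1)
      have := ca_le (hz x hx) hz'
      omega
  by_cases hcc : ∀ n, ∃ x ∈ C, n ≤ cc x
  · refine ⟨e, e_mem_of_cc hF hup fun n => ?_, fun x _ => e_mul x, fun z hz => ?_⟩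
    · obtain ⟨x, hx, hn⟩ := hcc n
      exact ⟨x, hCF hx, hne' x hx, hn⟩
    · by_contra hze
      have hz' : z ≠ e := fun hh => hze (by rw [hh]; simp)
      obtain ⟨x, hx, hn⟩ := hcc (cc z + 1)
      have := cc_le (hz x hx) hz'
      omega
  push Not at hca hcc
  obtain ⟨A, hA⟩ := hca
  obtain ⟨A', hA'⟩ := hcc
  -- choose an element of a subset of `C` with the largest `ca + cc`
  have hmaxel : ∀ D : Set P, D ⊆ C → D.Nonempty → ∃ x ∈ D, ∀ y ∈ D, ca y + cc y ≤ ca x + cc x := by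
    intro D hD hDne
    have hfin : ((fun x => ca x + cc x) '' D).Finite := by
      refine (finite_Iic (A + A')).subset ?_
      rintro _ ⟨x, hx, rfl⟩
      have := hA x (hD hx); have := hA' x (hD hx)
      simp only [mem_Iic]; omega
    obtain ⟨x, hx, hmax⟩ := Set.exists_max_image _ id hfin (hDne.image _)
    obtain ⟨y, hy, rfl⟩ := hx
    exact ⟨y, hy, fun z hz => hmax _ ⟨z, hz, rfl⟩⟩
  by_cases hinf : ∃ x ∈ C, ∃ a c h, x = inf a c h
  · -- there is a point `(a,∞,c)` in the chain: the smallest one is the infimum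
    obtain ⟨x, ⟨hx, a, c, h, rfl⟩, hmax⟩ := hmaxel {x | x ∈ C ∧ ∃ a c h, x = inf a c h}
      (fun x hx => hx.1) (by obtain ⟨x, hx, hh⟩ := hinf; exact ⟨x, hx, hh⟩)
    refine ⟨_, hCF hx, fun y hy => ?_, fun z hz => hz _ hx⟩
    rcases hC _ hx y hy with hh | hh
    · exact hh
    · rcases y with _ | ⟨a', b', c', h'⟩ | ⟨a', c', h'⟩
      · exact absurd hy he
      · exact absurd hh not_fi_le
      · have h1 := hmax _ ⟨hy, _, _, _, rfl⟩
        rw [ii_le] at hh ⊢
        simp at h1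
        omega
  -- all elements of the chain are `(a,b,c)` with `b` finite
  have hfin : ∀ x ∈ C, ∃ a b c h, x = fin a b c h := by
    intro x hx
    rcases x with _ | ⟨a', b', c', h'⟩ | ⟨a', c', h'⟩
    · exact absurd hx he
    · exact ⟨_, _, _, _, rfl⟩
    · exact absurd ⟨_, hx, _, _, _, rfl⟩ hinf
  obtain ⟨x, hx, hmax⟩ := hmaxel C Subset.rfl hne
  obtain ⟨a, b, c, h, rfl⟩ := hfin x hx
  simp only [ca_fin, cc_fin] at hmax
  by_cases hbb : ∃ B, ∀ a b c h, fin a b c h ∈ C → b ≤ B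
  · -- bounded: there is a smallest element
    obtain ⟨B, hB⟩ := hbb
    have hcfin : C.Finite := by
      have hinj : Set.InjOn (fun x : P => match x with
        | e => (0, 0, 0)
        | fin a b c _ => (a, b, c)
        | inf a c _ => (a, 0, c)) C := by
        intro x hx y hy hxy
        obtain ⟨a1, b1, c1, h1, rfl⟩ := hfin x hx
        obtain ⟨a2, b2, c2, h2, rfl⟩ := hfin y hy
        simpa using hxy
      refine Set.Finite.of_finite_image ?_ hinj
      refine ((finite_Iic (A, B, A'))).subset ?_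
      rintro _ ⟨x, hx, rfl⟩
      obtain ⟨a1, b1, c1, h1, rfl⟩ := hfin x hx
      have e1 := hA _ hx
      have e2 := hA' _ hx
      have e3 := hB _ _ _ _ hx
      simp only [ca_fin, cc_fin] at e1 e2
      exact ⟨by simp; omega, by simp; omega, by simp; omega⟩
    obtain ⟨m, hm, hmm⟩ := Set.exists_max_image C rk hcfin hne
    refine ⟨m, hCF hm, fun y hy => ?_, fun z hz => hz m hm⟩
    rcases hC m hm y hy with hh | hh
    · exact hh
    · by_cases hym : y = m
      · subst hym; exact hh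
      · exact absurd (rk_lt hh hym) (not_lt.mpr (hmm y hy))
  · push Not at hbb
    have hlarge : ∀ B, ∃ b' hb', B < b' ∧ fin a b' c hb' ∈ C := by
      intro B
      obtain ⟨a', b', c', h', hm, hB⟩ := hbb (max B b)
      have h1 := hmax _ hm
      simp only [ca_fin, cc_fin] at h1
      rcases hC _ hx _ hm with hh | hh
      · rw [ff_le] at hh; omega
      · rw [ff_le] at hh
        obtain ⟨rfl⟩ : a' = a := by omega
        obtain ⟨rfl⟩ : c' = c := by omega
        exact ⟨b', h', by omega, hm⟩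
    refine ⟨inf a (max a c) (by omega), ?_, fun y hy => ?_, fun z hz => ?_⟩
    · by_contra hnot
      obtain ⟨B, hB⟩ := hF.isOpen_compl.1 _ _ _ hnot
      obtain ⟨b', hb', hlt, hm⟩ := hlarge B
      exact hB b' hb' c (by omega) rfl (hCF hm)
    · obtain ⟨a1, b1, c1, h1, rfl⟩ := hfin y hy
      obtain ⟨b', hb', hlt, hm⟩ := hlarge b1
      rw [if_le]
      rcases hC _ hm _ hy with hh | hh
      · rw [ff_le] at hh; omega
      · rw [ff_le] at hh; omega
    · rcases z with _ | ⟨a', b', c', h'⟩ | ⟨a', c', h'⟩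
      · simp
      · obtain ⟨b1, hb1, hlt, hm⟩ := hlarge b'
        have := hz _ hm
        rw [ff_le] at this
        omega
      · have := hz _ hx
        rw [if_le] at this
        rw [ii_le]
        omega

/-- The chain `(n,n,0)` has no infimum in the closure of its upper set. -/
lemma bad {i : P} (hi : ∀ n, mul i (fin n n 0 le_rfl) = i) :
    i ∉ closure {x | ∃ n, mul (fin n n 0 le_rfl) x = fin n n 0 le_rfl} := by
  have hie : i = e := by
    rcases i with _ | ⟨a', b', c', h'⟩ | ⟨a', c', h'⟩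
    · rfl
    · have := hi (a' + 1)
      rw [ff_le] at this; omega
    · have := hi (a' + 1)
      rw [if_le] at this; omega
  subst hie
  intro hcl
  obtain ⟨x, hx, n, hn⟩ := mem_closure_iff.mp hcl (V 0) (isOpen_V 0) (Or.inl rfl)
  rcases hx with rfl | ⟨h1, h2⟩
  · simp at hn
  · rcases x with _ | ⟨a', b', c', h'⟩ | ⟨a', c', h'⟩
    · simp at hn
    · rw [ff_le] at hn
      simp at h2; omega
    · simp at hn

end P

end Pool.Agent.Helper91.SemiLat
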